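import Mathlib
import Pool.Agent.H91.LF.Defs
import Pool.Agent.H89.MT.Defs

/-!
# The remote past of Furstenberg systems of multiplicative functions. Definitions and targets

Problem MP_c59857_nt (and MP_34b97f_an).
-/

set_option autoImplicit false

open MeasureTheory ProbabilityTheory Filter Topology Finset

namespace Pool.Agent.H36.RP

open Pool.Agent.H89.MT (I1 X pt z1 IsMult)
open Pool.Agent.H91.LF (Mean Dil Bdd)

/-- The shift on `X = [-1,1]^ℤ`. -/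
def S (x : X) : X := fun t => x (t + 1)

/-- `κ` is a weak limit of the logarithmic means of the points `S ^ n u` over windows `[Y k, Z k]`
with `log (Z k / Y k) → ∞`. -/
def QuasiGeneric (u : ℕ → I1) (κ : Measure X) : Prop :=
  ∃ Y Z : ℕ → ℕ, (∀ k, 1 ≤ Y k ∧ Y k ≤ Z k) ∧
    Tendsto (fun k => Real.log ((Z k : ℝ) / Y k)) atTop atTop ∧
    ∀ F : C(X, ℝ), Tendsto (fun k => (∑ n ∈ Icc (Y k) (Z k), F (pt u n) / n) /
      Real.log ((Z k : ℝ) / Y k)) atTop (𝓝 (∫ x, F x ∂κ))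

/-- The past up to the time `q`: the sigma algebra generated by the coordinates `x k`, `k ≤ q`. -/
def past (q : ℤ) : MeasurableSpace X :=
  ⨆ k : ℤ, ⨆ _ : k ≤ q, MeasurableSpace.comap (fun x : X => x k) inferInstance

/-- The remote past. -/
def remote : MeasurableSpace X := ⨅ q : ℤ, past q

theorem past_le (q : ℤ) : past q ≤ (inferInstance : MeasurableSpace X) := by
  refine iSup_le fun k => iSup_le fun _ => ?_
  exact (measurable_pi_apply k).comap_le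

theorem past_mono {q q' : ℤ} (h : q ≤ q') : past q ≤ past q' := by
  refine iSup_le fun k => iSup_le fun hk => ?_
  exact le_iSup_of_le k (le_iSup_of_le (hk.trans h) le_rfl)

theorem remote_le_past (q : ℤ) : remote ≤ past q := iInf_le _ q

theorem remote_le : remote ≤ (inferInstance : MeasurableSpace X) :=
  (remote_le_past 0).trans (past_le 0)

/-- The product in `[-1,1]`. -/
def mulI (a b : I1) : I1 := ⟨(a : ℝ) * b, by
  have ha := abs_le.2 a.2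
  have hb := abs_le.2 b.2
  have h : |(a : ℝ) * b| ≤ 1 := by
    rw [abs_mul]
    exact mul_le_one₀ ha (abs_nonneg _) hb
  exact abs_le.1 h⟩

/-- The twisted dilation `x ↦ (s x (p k))_k`. -/
def dil (s : I1) (p : ℕ) (x : X) : X := fun k => mulI s (x (p * k))

/-- The function `G` on `X` depends on the coordinates with index in `[-H, H]` only. -/
def Local (H : ℕ) (G : X → ℝ) : Prop := ∀ x x' : X, (∀ k : ℤ, |k| ≤ H → x k = x' k) → G x = G x'

/-- Approximate invariance under the dilations by arbitrarily large primes. -/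
def Star (κ : Measure X) : Prop :=
  ∀ (G : X → ℝ) (H : ℕ), Continuous G → Local H G → ∀ (ε : ℝ) (Q : ℕ), 0 < ε →
    ∃ p : ℕ, Q ≤ p ∧ ∃ s : I1, (s : ℝ) ^ 2 = 1 ∧
      |∫ x, G (dil s p x) ∂κ - ∫ x, G x ∂κ| ≤ ε

/-- almost every point has its coordinates in `{-1, 0, 1}` -/
def Trit (κ : Measure X) : Prop :=
  ∀ᵐ x ∂κ, ∀ k : ℤ, (x k : ℝ) = -1 ∨ (x k : ℝ) = 0 ∨ (x k : ℝ) = 1

/-- [MW] The mean of a sequence of windows. -/
def T_MW : Prop := ∀ Y Z : ℕ → ℕ, (∀ k, 1 ≤ Y k ∧ Y k ≤ Z k) →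
  Tendsto (fun k => Real.log ((Z k : ℝ) / Y k)) atTop atTop →
  ∃ M : Mean 1, Dil M ∧ ∀ (f : ℤ → ℝ) (C L : ℝ), (∀ n, |f n| ≤ C) →
    Tendsto (fun k => (∑ n ∈ Icc (Y k) (Z k), f n / n) / Real.log ((Z k : ℝ) / Y k))
      atTop (𝓝 L) → M.E (fun ω => f (ω 0)) = L

/-- [AR] The entropy decrement for the twisted dilations. -/
def T_AR : Prop := ∀ M : Mean 1, Dil M → ∀ F : ℤ → ℝ, (∀ n, F n = -1 ∨ F n = 0 ∨ F n = 1) →
  (∀ (p : ℕ) (m : ℤ), p.Prime → ¬ (p : ℤ) ∣ m → F (p * m) = F p * F m) →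
  ∀ H : ℕ, ∃ C : ℝ, ∀ Φ : (ℤ → ℝ) → ℝ, (∀ z, |Φ z| ≤ 1) →
    (∀ z z' : ℤ → ℝ, (∀ k : ℤ, |k| ≤ H → z k = z' k) → Φ z = Φ z') →
    ∀ S : Finset ℕ, (∀ p ∈ S, p.Prime ∧ F p ≠ 0) →
      ∑ p ∈ S, (1 / (p : ℝ)) * (M.E (fun ω => Φ (fun k => F p * F (ω 0 + p * k))) -
        M.E (fun ω => Φ (fun k => F (ω 0 + k)))) ^ 2 ≤ C

/-- [ST] From the arithmetic to the measure. -/
def T_ST : Prop := ∀ u : ℕ → I1, IsMult u →
  (∀ n, (u n : ℝ) = -1 ∨ (u n : ℝ) = 0 ∨ (u n : ℝ) = 1) →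
  ¬ Summable (fun p : ℕ => if p.Prime ∧ (u p : ℝ) ≠ 0 then (1 : ℝ) / p else 0) →
  ∀ (κ : Measure X) [IsProbabilityMeasure κ], QuasiGeneric u κ → Star κ

/-- [MP] Shift invariance and the values of the coordinates. -/
def T_MP : Prop := ∀ u : ℕ → I1,
  (∀ n, (u n : ℝ) = -1 ∨ (u n : ℝ) = 0 ∨ (u n : ℝ) = 1) →
  ∀ (κ : Measure X) [IsProbabilityMeasure κ], QuasiGeneric u κ →
    MeasurePreserving S κ κ ∧ Trit κ

/-- [APX] Approximation by continuous local functions of the past. -/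
def T_APX : Prop := ∀ (κ : Measure X) [IsProbabilityMeasure κ] (q : ℤ) (g : X → ℝ) (C : ℝ),
  Measurable[past q] g → (∀ x, |g x| ≤ C) → ∀ ε : ℝ, 0 < ε →
    ∃ (φ : X → ℝ) (H : ℕ), Continuous φ ∧ Measurable[past q] φ ∧ Local H φ ∧
      ∫ x, (g x - φ x) ^ 2 ∂κ ≤ ε

/-- [APF] Approximation of a measurable function by continuous local functions. -/
def T_APF : Prop := ∀ (κ : Measure X) [IsProbabilityMeasure κ] (g : X → ℝ) (C : ℝ),
  Measurable g → (∀ x, |g x| ≤ C) → ∀ ε : ℝ, 0 < ε →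
    ∃ (φ : X → ℝ) (H : ℕ), Continuous φ ∧ Local H φ ∧ ∫ x, (g x - φ x) ^ 2 ∂κ ≤ ε

/-- [PYT] Conditional expectations and distances. -/
def T_PYT : Prop := ∀ (κ : Measure X) [IsProbabilityMeasure κ] (f : X → ℝ) (C : ℝ),
  Measurable f → (∀ x, |f x| ≤ C) →
  (∀ (q : ℤ) (h : X → ℝ) (D : ℝ), Measurable[past q] h → (∀ x, |h x| ≤ D) →
    ∫ x, (f x - (κ[f | past q]) x) ^ 2 ∂κ ≤ ∫ x, (f x - h x) ^ 2 ∂κ) ∧
  ∀ q q' : ℤ, q ≤ q' →
    ∫ x, (f x - (κ[f | past q]) x) ^ 2 ∂κ ≤ ∫ x, (f x - (κ[f | past q']) x) ^ 2 ∂κ →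
      κ[f | past q'] =ᵐ[κ] κ[f | past q]

/-- [PRD] The prediction from the past equals the prediction from every earlier past. -/
def T_PRD : Prop := ∀ (κ : Measure X) [IsProbabilityMeasure κ], MeasurePreserving S κ κ → Star κ →
  ∀ ψ : I1 → ℝ, Continuous ψ → (∀ s : I1, (s : ℝ) ^ 2 = 1 → ∃ t : ℝ, t ^ 2 = 1 ∧
    ∀ a, ψ (mulI s a) = t * ψ a) →
  ∀ (m : ℤ) (q : ℕ), κ[fun x => ψ (x m) | past (m - 1)] =ᵐ[κ]
    κ[fun x => ψ (x m) | past (m - 1 - q)]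

/-- [TAI] From all the pasts to the remote past. -/
def T_TAI : Prop := ∀ (κ : Measure X) [IsProbabilityMeasure κ] (f : X → ℝ) (q : ℤ),
  (∀ j : ℕ, κ[f | past q] =ᵐ[κ] κ[f | past (q - j)]) →
    κ[f | past q] =ᵐ[κ] κ[f | remote]

/-- [SET] The prediction of the coordinates by the remote past. -/
def T_SET : Prop := ∀ (κ : Measure X) [IsProbabilityMeasure κ], MeasurePreserving S κ κ → Star κ →
  Trit κ → ∀ (m : ℤ) (ψ : I1 → ℝ),
    κ[fun x => ψ (x m) | past (m - 1)] =ᵐ[κ] κ[fun x => ψ (x m) | remote]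

/-- [IND] Conditional independence given the remote past. -/
def T_IND : Prop := ∀ (κ : Measure X) [IsProbabilityMeasure κ],
  (∀ (m : ℤ) (ψ : I1 → ℝ), Measurable ψ → (∀ a, |ψ a| ≤ 1) →
    κ[fun x => ψ (x m) | past (m - 1)] =ᵐ[κ] κ[fun x => ψ (x m) | remote]) →
  iCondIndepFun remote remote_le (fun (n : ℤ) (x : X) => x n) κ

/-- [INV] The invariant sets belong to the remote past up to null sets. -/
def T_INV : Prop := ∀ (κ : Measure X) [IsProbabilityMeasure κ], MeasurePreserving S κ κ →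
  ∀ A : Set X, MeasurableSet A → S ⁻¹' A = A →
    κ[A.indicator (fun _ => (1 : ℝ)) | remote] =ᵐ[κ] A.indicator (fun _ => (1 : ℝ))

/-- [CHO] The vanishing of the correlations and the remote past. -/
def T_CHO : Prop := ∀ (κ : Measure X) [IsProbabilityMeasure κ], MeasurePreserving S κ κ →
  Trit κ → (∀ (m : ℤ) (ψ : I1 → ℝ), Measurable ψ → (∀ a, |ψ a| ≤ 1) →
    κ[fun x => ψ (x m) | past (m - 1)] =ᵐ[κ] κ[fun x => ψ (x m) | remote]) →
  iCondIndepFun remote remote_le (fun (n : ℤ) (x : X) => x n) κ →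
  ((∀ (s : Finset ℤ) (n : ℤ) (e : ℤ → ℕ), n ∉ s →
    ∫ x, (x n : ℝ) * ∏ k ∈ s, (x k : ℝ) ^ e k ∂κ = 0) ↔
      κ[fun x => (x 0 : ℝ) | remote] =ᵐ[κ] 0)

end Pool.Agent.H36.RP
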