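import Pool.Agent.H36.RP.CMP

/-!
# The remote past on the ergodic components, conclusion (MP_c59857_nt)
-/

set_option autoImplicit false

open MeasureTheory ProbabilityTheory Filter Topology Finset

namespace Pool.Agent.H36.RP

open Pool.Agent.H89.MT (I1 X pt z1 o1 m1 IsMult)

theorem null_comp (κ : Measure X) [IsProbabilityMeasure κ] {E : Set X} (hE : MeasurableSet E)
    (h0 : κ E = 0) : ∀ᵐ x ∂κ, comp κ x E = 0 := by
  have h1 := condExpKernel_ae_eq_condExp (μ := κ) IS_le hE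
  have h2 : κ[(E.indicator fun _ => (1 : ℝ)) | IS] =ᵐ[κ] κ[(0 : X → ℝ) | IS] := by
    apply condExp_congr_ae
    have h3 : ∀ᵐ x ∂κ, x ∉ E := by
      rw [ae_iff]
      simpa using h0
    filter_upwards [h3] with x hx
    simp [hx]
  rw [condExp_zero] at h2
  filter_upwards [h1, h2] with x h1 h2
  have h4 : (comp κ x).real E = 0 := by
    unfold comp
    rw [h1, h2]
    rfl
  rwa [measureReal_eq_zero_iff] at h4

theorem ae_comp (κ : Measure X) [IsProbabilityMeasure κ] {P : X → Prop}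
    (h0 : ∀ᵐ x ∂κ, P x) : ∀ᵐ x ∂κ, ∀ᵐ y ∂(comp κ x), P y := by
  obtain ⟨E, hsub, hE, hE0⟩ := exists_measurable_superset_of_null (ae_iff.1 h0)
  filter_upwards [null_comp κ hE hE0] with x hx
  rw [ae_iff]
  exact measure_mono_null hsub hx

theorem trit_comp (κ : Measure X) [IsProbabilityMeasure κ] (h : Trit κ) :
    ∀ᵐ x ∂κ, Trit (comp κ x) := ae_comp κ h

/-- a function on `{-1, 0, 1}` is a polynomial -/
theorem quad (ψ : I1 → ℝ) : ∃ a b c : ℝ, ∀ t : I1, ((t : ℝ) = -1 ∨ (t : ℝ) = 0 ∨ (t : ℝ) = 1) →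
    ψ t = a + b * t + c * (t : ℝ) ^ 2 := by
  refine ⟨ψ z1, (ψ o1 - ψ m1) / 2, (ψ o1 + ψ m1) / 2 - ψ z1, ?_⟩
  intro t ht
  rcases ht with ht | ht | ht
  · have h1 : t = m1 := Subtype.ext ht
    rw [ht, h1]
    ring
  · have h1 : t = z1 := Subtype.ext ht
    rw [ht, h1]
    ring
  · have h1 : t = o1 := Subtype.ext ht
    rw [ht, h1]
    ring

theorem meas_y (m : ℤ) : Measurable fun x : X => (x m : ℝ) :=
  measurable_subtype_coe.comp (measurable_pi_apply m)

theorem abs_y (x : X) (m : ℤ) : |(x m : ℝ)| ≤ 1 := abs_le.2 (x m).2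

theorem int_y (ν : Measure X) [IsProbabilityMeasure ν] (m : ℤ) (j : ℕ) :
    Integrable (fun x : X => (x m : ℝ) ^ j) ν := by
  refine Integrable.of_bound ((meas_y m).pow_const j).aestronglyMeasurable 1
    (Eventually.of_forall fun x => ?_)
  rw [Real.norm_eq_abs, abs_pow]
  exact pow_le_one₀ (abs_nonneg _) (abs_y x m)

/-- the conditional expectation of a function of a coordinate from those of its powers -/
theorem lin_cond (ν : Measure X) [IsProbabilityMeasure ν] (hT : Trit ν) (m : ℤ)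
    {mm : MeasurableSpace X} (ψ : I1 → ℝ) (a b c : ℝ)
    (habc : ∀ t : I1, ((t : ℝ) = -1 ∨ (t : ℝ) = 0 ∨ (t : ℝ) = 1) →
      ψ t = a + b * t + c * (t : ℝ) ^ 2) (hmm : mm ≤ (MeasurableSpace.pi : MeasurableSpace X)) :
    ν[fun x => ψ (x m) | mm] =ᵐ[ν] fun x => a + b * (ν[fun x => (x m : ℝ) ^ 1 | mm]) x +
      c * (ν[fun x => (x m : ℝ) ^ 2 | mm]) x := by
  have h1 : (fun x : X => ψ (x m)) =ᵐ[ν] (fun _ => a) + (b • (fun x : X => (x m : ℝ) ^ 1) +
      c • (fun x : X => (x m : ℝ) ^ 2)) := by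
    filter_upwards [hT] with x hx
    simp only [Pi.add_apply, Pi.smul_apply, smul_eq_mul, pow_one]
    rw [habc _ (hx m)]
    ring
  have h2 := condExp_congr_ae (m := mm) h1
  have h3 := condExp_add (μ := ν) (integrable_const a)
    (((int_y ν m 1).smul b).add ((int_y ν m 2).smul c)) mm
  have h4 := condExp_add (μ := ν) ((int_y ν m 1).smul b) ((int_y ν m 2).smul c) mm
  have h5 := condExp_smul (μ := ν) b (fun x : X => (x m : ℝ) ^ 1) mm
  have h6 := condExp_smul (μ := ν) c (fun x : X => (x m : ℝ) ^ 2) mm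
  have h7 : ν[fun _ : X => a | mm] = fun _ => a := condExp_const hmm a
  filter_upwards [h2, h3, h4, h5, h6] with x h2 h3 h4 h5 h6
  rw [h2, h3, Pi.add_apply, h4, Pi.add_apply, h5, h6, h7]
  simp only [Pi.smul_apply, smul_eq_mul]
  ring

/-- a bounded version of the conditional expectation -/
theorem exists_version (κ : Measure X) [IsProbabilityMeasure κ] (f : X → ℝ)
    (h1 : ∀ x, |f x| ≤ 1) (mm : MeasurableSpace X) :
    ∃ V : X → ℝ, Measurable[mm] V ∧ (∀ x, |V x| ≤ 1) ∧ κ[f | mm] =ᵐ[κ] V := by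
  have hb : ∀ᵐ x ∂κ, |(κ[f | mm]) x| ≤ 1 :=
    ae_bdd_abs_condExp_of_ae_bdd_abs (Eventually.of_forall fun x => h1 x)
  refine ⟨fun x => max (-1) (min 1 ((κ[f | mm]) x)), ?_, ?_, ?_⟩
  · have h2 : Measurable[mm] (κ[f | mm]) := stronglyMeasurable_condExp.measurable
    exact measurable_const.max (measurable_const.min h2)
  · intro x
    exact abs_le.2 ⟨le_max_left _ _, max_le (by norm_num) (min_le_left _ _)⟩
  · filter_upwards [hb] with x hx
    have h3 := abs_le.1 hx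
    rw [min_eq_right h3.2, max_eq_right h3.1]

theorem pf_comp (κ : Measure X) [IsProbabilityMeasure κ] (hT : Trit κ)
    (hset : ∀ (m : ℤ) (ψ : I1 → ℝ), Measurable ψ → (∀ a, |ψ a| ≤ 1) →
      κ[fun x => ψ (x m) | past (m - 1)] =ᵐ[κ] κ[fun x => ψ (x m) | remote])
    (hinv : ∀ A : Set X, MeasurableSet A → S ⁻¹' A = A →
      κ[A.indicator (fun _ => (1 : ℝ)) | remote] =ᵐ[κ] A.indicator (fun _ => (1 : ℝ))) :
    (∀ᵐ x ∂κ, ∀ (m : ℤ) (ψ : I1 → ℝ), Measurable ψ → (∀ a, |ψ a| ≤ 1) →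
      (comp κ x)[fun y => ψ (y m) | past (m - 1)] =ᵐ[comp κ x]
        (comp κ x)[fun y => ψ (y m) | remote]) ∧
    ∀ (m : ℤ) (ψ : I1 → ℝ), Measurable ψ → (∀ a, |ψ a| ≤ 1) → ∀ᵐ x ∂κ,
      κ[fun y => ψ (y m) | remote] =ᵐ[comp κ x] (comp κ x)[fun y => ψ (y m) | remote] := by
  -- one function
  have key : ∀ (m : ℤ) (ψ : I1 → ℝ), Measurable ψ → (∀ a, |ψ a| ≤ 1) → ∀ᵐ x ∂κ,
      (comp κ x)[fun y => ψ (y m) | past (m - 1)] =ᵐ[comp κ x]
        (comp κ x)[fun y => ψ (y m) | remote] ∧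
      κ[fun y => ψ (y m) | remote] =ᵐ[comp κ x] (comp κ x)[fun y => ψ (y m) | remote] := by
    intro m ψ hψ hψ1
    have hfm : Measurable fun x : X => ψ (x m) := hψ.comp (measurable_pi_apply m)
    obtain ⟨V, hVm, hV1, hV⟩ := exists_version κ (fun x => ψ (x m)) (fun x => hψ1 _) remote
    have h1 : κ[fun x => ψ (x m) | past (m - 1)] =ᵐ[κ] V := (hset m ψ hψ hψ1).trans hV
    have h2 := comp_past κ hinv (m - 1) (fun x => ψ (x m)) V 1 hfm (fun x => hψ1 _)
      (hVm.mono (remote_le_past _) le_rfl) hV1 h1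
    have hVc : ∀ᵐ x ∂κ, κ[fun x => ψ (x m) | remote] =ᵐ[comp κ x] V := ae_comp κ hV
    filter_upwards [h2, hVc] with x hx hVx
    have hVi : Integrable V (comp κ x) :=
      Integrable.of_bound (hVm.mono remote_le le_rfl).aestronglyMeasurable 1
        (Eventually.of_forall fun x => hV1 x)
    have h3 : (comp κ x)[fun y => ψ (y m) | remote] =ᵐ[comp κ x] V := by
      have h4 : (comp κ x)[(comp κ x)[fun y => ψ (y m) | past (m - 1)] | remote] =ᵐ[comp κ x]
          (comp κ x)[fun y => ψ (y m) | remote] :=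
        condExp_condExp_of_le (remote_le_past _) (past_le _)
      have h5 : (comp κ x)[(comp κ x)[fun y => ψ (y m) | past (m - 1)] | remote] =ᵐ[comp κ x]
          (comp κ x)[V | remote] := condExp_congr_ae hx
      have h6 : (comp κ x)[V | remote] = V :=
        condExp_of_stronglyMeasurable remote_le hVm.stronglyMeasurable hVi
      rw [h6] at h5
      exact h4.symm.trans h5
    exact ⟨hx.trans h3.symm, hVx.trans h3.symm⟩
  refine ⟨?_, fun m ψ hψ hψ1 => ?_⟩
  · have hpow : ∀ j : ℕ, Measurable (fun t : I1 => (t : ℝ) ^ j) ∧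
        ∀ t : I1, |(t : ℝ) ^ j| ≤ 1 := by
      intro j
      refine ⟨measurable_subtype_coe.pow_const j, fun t => ?_⟩
      rw [abs_pow]
      exact pow_le_one₀ (abs_nonneg _) (abs_le.2 t.2)
    have h1 : ∀ᵐ x ∂κ, ∀ (m : ℤ) (j : ℕ),
        (comp κ x)[fun y => (y m : ℝ) ^ j | past (m - 1)] =ᵐ[comp κ x]
          (comp κ x)[fun y => (y m : ℝ) ^ j | remote] := by
      rw [ae_all_iff]
      intro m
      rw [ae_all_iff]
      intro j
      filter_upwards [key m (fun t => (t : ℝ) ^ j) (hpow j).1 (hpow j).2] with x hx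
      exact hx.1
    filter_upwards [h1, trit_comp κ hT] with x hx hTx m ψ _ _
    obtain ⟨a, b, c, habc⟩ := quad ψ
    have h2 := lin_cond (comp κ x) hTx m ψ a b c habc (past_le (m - 1))
    have h3 := lin_cond (comp κ x) hTx m ψ a b c habc remote_le
    filter_upwards [h2, h3, hx m 1, hx m 2] with y h2 h3 h4 h5
    rw [h2, h3, h4, h5]
  · filter_upwards [key m ψ hψ hψ1] with x hx
    exact hx.2

end Pool.Agent.H36.RP
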