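import Pool.Agent.H36.RP.Targets
import Pool.Agent.H24.EG.Comp

/-!
# The remote past on the ergodic components (MP_c59857_nt)
-/

set_option autoImplicit false

open MeasureTheory ProbabilityTheory Filter Topology Finset

namespace Pool.Agent.H36.RP

open Pool.Agent.H89.MT (I1 X pt z1 IsMult)
open Pool.Agent.H24.EG (Alg alg_countable alg_gen alg_meas alg_pi)

/-- The coordinates after the time `q` are replaced by zero. -/
def cut (q : ℤ) (x : X) : X := fun k => if k ≤ q then x k else z1

theorem meas_coord {q k : ℤ} (h : k ≤ q) : Measurable[past q] (fun x : X => x k) := by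
  intro s hs
  have h1 : MeasurableSpace.comap (fun x : X => x k) inferInstance ≤ past q :=
    le_iSup_of_le k (le_iSup_of_le h le_rfl)
  exact h1 _ ⟨s, hs, rfl⟩

theorem meas_cut (q : ℤ) : Measurable[past q] (cut q) := by
  refine @measurable_pi_lambda X ℤ (fun _ => I1) (past q) (fun _ => inferInstance) (cut q) ?_
  intro k
  by_cases hk : k ≤ q
  · have h1 : (fun x : X => cut q x k) = fun x : X => x k := by
      funext x
      exact if_pos hk
    rw [h1]
    exact meas_coord hk
  · have h1 : (fun x : X => cut q x k) = fun _ : X => z1 := by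
      funext x
      exact if_neg hk
    rw [h1]
    exact measurable_const

theorem past_set {q : ℤ} {A : Set X} (hA : MeasurableSet[past q] A) :
    ∃ B : Set X, MeasurableSet B ∧ cut q ⁻¹' B = A := by
  have h1 : past q ≤ MeasurableSpace.comap (cut q) MeasurableSpace.pi := by
    refine iSup_le fun k => iSup_le fun hk => ?_
    rintro _ ⟨s, hs, rfl⟩
    refine ⟨(fun x : X => x k) ⁻¹' s, measurable_pi_apply k hs, ?_⟩
    ext x
    simp only [Set.mem_preimage]
    rw [show cut q x k = x k from if_pos hk]
  exact h1 _ hA

/-- the invariant sets -/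
abbrev IS : MeasurableSpace X := MeasurableSpace.invariants S

theorem IS_le : IS ≤ (MeasurableSpace.pi : MeasurableSpace X) := fun _ hs => hs.1

/-- The conditional measures given the invariant sets: the ergodic components. -/
noncomputable def comp (κ : Measure X) [IsProbabilityMeasure κ] (x : X) : Measure X :=
  condExpKernel κ (MeasurableSpace.invariants S) x

instance (κ : Measure X) [IsProbabilityMeasure κ] (x : X) : IsProbabilityMeasure (comp κ x) := by
  unfold comp
  infer_instance

/-- the integral over a past set against the components -/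
theorem comp_int (κ : Measure X) [IsProbabilityMeasure κ]
    (hinv : ∀ A : Set X, MeasurableSet A → S ⁻¹' A = A →
      κ[A.indicator (fun _ => (1 : ℝ)) | remote] =ᵐ[κ] A.indicator (fun _ => (1 : ℝ)))
    (q : ℤ) (g : X → ℝ) (C : ℝ) (hg : Measurable g) (hgC : ∀ x, |g x| ≤ C)
    (h0 : κ[g | past q] =ᵐ[κ] 0) (A : Set X) (hA : MeasurableSet[past q] A) :
    ∀ᵐ x ∂κ, ∫ y, A.indicator g y ∂(comp κ x) = 0 := by
  have hAm : MeasurableSet A := past_le q _ hA
  have hgi : Integrable g κ := Integrable.of_bound hg.aestronglyMeasurable C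
    (Eventually.of_forall fun x => hgC x)
  have h1 : κ[A.indicator g | IS] =ᵐ[κ] 0 := by
    refine (ae_eq_condExp_of_forall_setIntegral_eq IS_le (hgi.indicator hAm) ?_ ?_ ?_).symm
    · intro s _ _
      exact (integrable_zero X ℝ κ).integrableOn
    · intro J hJ _
      have hJm : MeasurableSet J := hJ.1
      have h2 := hinv J hJm hJ.2
      simp only [Pi.zero_apply, integral_zero]
      rw [← integral_indicator hJm]
      obtain ⟨W, hW⟩ : ∃ W : X → ℝ, W = κ[J.indicator (fun _ => (1 : ℝ)) | remote] := ⟨_, rfl⟩
      rw [← hW] at h2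
      have hWm : StronglyMeasurable[past q] W := by
        rw [hW]
        exact stronglyMeasurable_condExp.mono (remote_le_past q)
      have hAi : StronglyMeasurable[past q] (A.indicator (fun _ => (1 : ℝ))) :=
        stronglyMeasurable_const.indicator hA
      have hWA : StronglyMeasurable[past q] (W * A.indicator (fun _ => (1 : ℝ))) := hWm.mul hAi
      have h3 : J.indicator (A.indicator g) =ᵐ[κ] (W * A.indicator (fun _ => (1 : ℝ))) * g := by
        filter_upwards [h2] with x hx
        simp only [Pi.mul_apply]
        rw [hx]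
        by_cases hxJ : x ∈ J <;> by_cases hxA : x ∈ A <;> simp [hxJ, hxA]
      have h4 : Integrable ((W * A.indicator (fun _ => (1 : ℝ))) * g) κ :=
        ((hgi.indicator hAm).indicator hJm).congr h3
      have h5 := condExp_mul_of_stronglyMeasurable_left hWA h4 hgi
      have h6 : ∫ x, (κ[(W * A.indicator (fun _ => (1 : ℝ))) * g | past q]) x ∂κ =
          ∫ x, ((W * A.indicator (fun _ => (1 : ℝ))) * g) x ∂κ := integral_condExp (past_le q)
      rw [integral_congr_ae h3, ← h6, integral_congr_ae h5]
      have h7 : (W * A.indicator (fun _ => (1 : ℝ))) * κ[g | past q] =ᵐ[κ] 0 := by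
        filter_upwards [h0] with x hx
        simp only [Pi.mul_apply, Pi.zero_apply]
        rw [hx]
        simp
      rw [integral_congr_ae h7]
      simp
    · exact stronglyMeasurable_zero.aestronglyMeasurable
  have h2 := condExp_ae_eq_integral_condExpKernel (μ := κ) IS_le (hgi.indicator hAm)
  filter_upwards [h1, h2] with x h1 h2
  rw [h1] at h2
  exact h2.symm

/-- the conditional expectation given the past, on the components -/
theorem comp_past (κ : Measure X) [IsProbabilityMeasure κ]
    (hinv : ∀ A : Set X, MeasurableSet A → S ⁻¹' A = A →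
      κ[A.indicator (fun _ => (1 : ℝ)) | remote] =ᵐ[κ] A.indicator (fun _ => (1 : ℝ)))
    (q : ℤ) (f V : X → ℝ) (C : ℝ) (hf : Measurable f) (hfC : ∀ x, |f x| ≤ C)
    (hV : Measurable[past q] V) (hVC : ∀ x, |V x| ≤ C)
    (h0 : κ[f | past q] =ᵐ[κ] V) :
    ∀ᵐ x ∂κ, (comp κ x)[f | past q] =ᵐ[comp κ x] V := by
  have hVm : Measurable V := hV.mono (past_le q) le_rfl
  have hfi : ∀ ν : Measure X, IsProbabilityMeasure ν → Integrable f ν := fun ν _ =>
    Integrable.of_bound hf.aestronglyMeasurable C (Eventually.of_forall fun x => hfC x)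
  have hVi : ∀ ν : Measure X, IsProbabilityMeasure ν → Integrable V ν := fun ν _ =>
    Integrable.of_bound hVm.aestronglyMeasurable C (Eventually.of_forall fun x => hVC x)
  have hg0 : κ[f - V | past q] =ᵐ[κ] 0 := by
    have h1 := condExp_sub (hfi κ inferInstance) (hVi κ inferInstance) (past q)
    have h2 : κ[V | past q] = V :=
      condExp_of_stronglyMeasurable (past_le q) hV.stronglyMeasurable (hVi κ inferInstance)
    filter_upwards [h1, h0] with x h1 h0
    rw [h1, h2]
    simp [h0]
  have hgm : Measurable (f - V) := hf.sub hVm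
  have hgC : ∀ x, |(f - V) x| ≤ 2 * C := by
    intro x
    have h1 := hfC x
    have h2 := hVC x
    have h3 := abs_sub (f x) (V x)
    simp only [Pi.sub_apply]
    linarith
  have h1 : ∀ᵐ x ∂κ, ∀ B ∈ Alg, ∫ y, (cut q ⁻¹' B).indicator (f - V) y ∂(comp κ x) = 0 := by
    rw [ae_ball_iff alg_countable]
    intro B hB
    exact comp_int κ hinv q (f - V) (2 * C) hgm hgC hg0 _ (meas_cut q (alg_meas hB))
  have h1' := comp_int κ hinv q (f - V) (2 * C) hgm hgC hg0 Set.univ MeasurableSet.univ
  filter_upwards [h1, h1'] with x hx hx'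
  have hcm : Measurable (cut q) := (meas_cut q).mono (past_le q) le_rfl
  have hgi : Integrable (f - V) (comp κ x) :=
    (hfi _ inferInstance).sub (hVi _ inferInstance)
  have huniv : ∫ y, (f - V) y ∂(comp κ x) = 0 := by
    rw [Set.indicator_univ] at hx'
    exact hx'
  have hall : ∀ B : Set X, MeasurableSet B →
      ∫ y in cut q ⁻¹' B, (f - V) y ∂(comp κ x) = 0 := by
    intro B hB
    refine MeasurableSpace.induction_on_inter
      (C := fun B _ => ∫ y in cut q ⁻¹' B, (f - V) y ∂(comp κ x) = 0) alg_gen alg_pi
      ?_ ?_ ?_ ?_ B hB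
    · simp
    · intro B hB
      rw [← integral_indicator (hcm (alg_meas hB))]
      exact hx B hB
    · intro B hB h
      have h2 := integral_add_compl (hcm hB) hgi
      rw [h, huniv, zero_add] at h2
      rw [Set.preimage_compl]
      exact h2
    · intro B hd hB h
      rw [Set.preimage_iUnion, integral_iUnion (fun i => hcm (hB i)) _ hgi.integrableOn]
      · simp only [h, tsum_zero]
      · intro i j hij
        exact Disjoint.preimage _ (hd hij)
  refine (ae_eq_condExp_of_forall_setIntegral_eq (past_le q) (hfi _ inferInstance) ?_ ?_ ?_).symm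
  · intro s _ _
    exact (hVi _ inferInstance).integrableOn
  · intro A hA _
    obtain ⟨B, hB, rfl⟩ := past_set hA
    have h2 := hall B hB
    have h3 : ∫ y in cut q ⁻¹' B, (f - V) y ∂(comp κ x) =
        ∫ y in cut q ⁻¹' B, f y ∂(comp κ x) - ∫ y in cut q ⁻¹' B, V y ∂(comp κ x) := by
      simp only [Pi.sub_apply]
      exact integral_sub (hfi _ inferInstance).integrableOn (hVi _ inferInstance).integrableOn
    rw [h3] at h2
    linarith
  · exact hV.stronglyMeasurable.aestronglyMeasurable

end Pool.Agent.H36.RP
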