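import Pool.Agent.H17.RP.APF
import Pool.Agent.H36.RP.CMP

/-!
# Approximation by continuous local functions of the past (MP_c59857_nt)
-/

set_option autoImplicit false

open MeasureTheory ProbabilityTheory Filter Topology Finset

namespace Pool.Agent.H36.RP

open Pool.Agent.H89.MT (I1 X pt z1 IsMult)

theorem cut_cont (q : ℤ) : Continuous (cut q) := by
  refine continuous_pi fun k => ?_
  by_cases hk : k ≤ q
  · have h1 : (fun x : X => cut q x k) = fun x : X => x k := by
      funext x
      exact if_pos hk
    rw [h1]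
    exact continuous_apply k
  · have h1 : (fun x : X => cut q x k) = fun _ : X => z1 := by
      funext x
      exact if_neg hk
    rw [h1]
    exact continuous_const

theorem cut_cut (q : ℤ) (x : X) : cut q (cut q x) = cut q x := by
  funext k
  unfold cut
  by_cases hk : k ≤ q
  · rw [if_pos hk, if_pos hk]
  · rw [if_neg hk, if_neg hk]

theorem past_fun {q : ℤ} {g : X → ℝ} (hg : Measurable[past q] g) (x : X) :
    g (cut q x) = g x := by
  obtain ⟨B, _, hB⟩ := past_set (hg (measurableSet_singleton (g x)))
  have h1 : x ∈ g ⁻¹' {g x} := rfl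
  rw [← hB] at h1
  have h2 : cut q x ∈ cut q ⁻¹' B := by
    rw [Set.mem_preimage, cut_cut]
    exact h1
  rw [hB] at h2
  exact h2

theorem pf_APX : T_APX := by
  intro κ _ q g C hg hC ε hε
  have hgm : Measurable g := hg.mono (past_le q) le_rfl
  have hcm : Measurable (cut q) := (cut_cont q).measurable
  have : IsProbabilityMeasure (κ.map (cut q)) :=
    Measure.isProbabilityMeasure_map hcm.aemeasurable
  obtain ⟨φ, H, hφ, hφl, hi⟩ := Pool.Agent.H17.RP.pf_APF (κ.map (cut q)) g C hgm hC ε hε
  refine ⟨fun x => φ (cut q x), H, hφ.comp (cut_cont q), ?_, ?_, ?_⟩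
  · exact hφ.measurable.comp (meas_cut q)
  · intro x x' h
    refine hφl _ _ fun k hk => ?_
    unfold cut
    rw [h k hk]
  · have hm2 : Measurable fun x => (g x - φ x) ^ 2 := (hgm.sub hφ.measurable).pow_const 2
    have h1 : ∫ x, (g x - φ x) ^ 2 ∂(κ.map (cut q)) =
        ∫ x, (g (cut q x) - φ (cut q x)) ^ 2 ∂κ :=
      integral_map hcm.aemeasurable hm2.aestronglyMeasurable
    rw [h1] at hi
    refine le_trans (le_of_eq ?_) hi
    congr 1
    funext x
    rw [past_fun hg]

end Pool.Agent.H36.RP
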