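import Pool.Agent.H36.RP.ZER

/-!
# Independent signs with a deterministic bias, for all multiplicative functions with values
in `{-1, 0, 1}` (MP_c59857_nt)
-/

set_option autoImplicit false

open MeasureTheory ProbabilityTheory Filter Topology Finset

namespace Pool.Agent.H36.RP

open Pool.Agent.H89.MT (I1 X pt z1 o1 m1 IsMult)
open Pool.Agent.H91.LF (Mean Dil Bdd bdd_const bdd_add bdd_mul bdd_smul bdd_sub bdd_sum bdd_comp)
open Pool.Agent.H12.RP (FF FF_val FF_mul FF_nat cl dil_cont dil_pt id_pt)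
open Pool.Agent.H95.RP (bias)

/-- if `u` vanishes at most primes, all the coordinates vanish -/
theorem zero_ae (u : ℕ → I1) (hu : IsMult u)
    (hv : ∀ n, (u n : ℝ) = -1 ∨ (u n : ℝ) = 0 ∨ (u n : ℝ) = 1)
    (hs : Summable (fun p : ℕ => if p.Prime ∧ (u p : ℝ) ≠ 0 then (1 : ℝ) / p else 0))
    (κ : Measure X) [IsProbabilityMeasure κ] (hκ : QuasiGeneric u κ) :
    ∀ᵐ x ∂κ, ∀ k : ℤ, (x k : ℝ) = 0 := by
  classical
  obtain ⟨Y, Z, hYZ, hlog, hF⟩ := hκ
  obtain ⟨M, -, hE⟩ := Pool.Agent.H14.RP.pf_MW Y Z hYZ hlog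
  have hF1 : ∀ n : ℤ, |FF u n| ≤ 1 := by
    intro n
    rcases FF_val u hv n with h | h | h <;> rw [h] <;> norm_num
  have hF2 : ∀ n : ℤ, |FF u n ^ 2| ≤ 1 := by
    intro n
    rw [abs_pow]
    exact pow_le_one₀ (abs_nonneg _) (hF1 n)
  have hb : Bdd (fun ω : Fin 1 → ℤ => FF u (ω 0) ^ 2) := ⟨1, fun ω => hF2 _⟩
  obtain ⟨δ, hδ⟩ : ∃ δ : ℝ, δ = M.E (fun ω => FF u (ω 0) ^ 2) := ⟨_, rfl⟩
  have hδ0 : 0 ≤ δ := by
    rw [hδ]
    exact M.nonneg _ hb fun ω => sq_nonneg _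
  -- the mean vanishes
  have hδz : δ = 0 := by
    by_contra hne
    have hpos : 0 < δ := lt_of_le_of_ne hδ0 (Ne.symm hne)
    have hsum : Summable (fun p : ℕ => if p.Prime ∧ FF u p = 0 then vv p else 0) := by
      refine summable_of_sum_le (c := 1 / δ) ?_ ?_
      · intro p
        by_cases h : p.Prime ∧ FF u p = 0
        · simp only [if_pos h, Pi.zero_apply]
          exact le_trans (by positivity) (vv_nonneg p h.1)
        · simp only [if_neg h, Pi.zero_apply]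
          exact le_rfl
      · intro S
        rw [← sum_filter]
        have h1 := mean_small M (FF u) hF1 (FF_mul u hu)
          (S.filter fun p => p.Prime ∧ FF u p = 0) (fun p hp => (mem_filter.1 hp).2)
        rw [← hδ] at h1
        obtain ⟨L, hL⟩ : ∃ L : ℝ, L = ∑ p ∈ S.filter (fun p : ℕ => p.Prime ∧ FF u p = 0), vv p :=
          ⟨_, rfl⟩
        rw [← hL] at h1 ⊢
        by_cases hL0 : L ≤ 0
        · exact hL0.trans (by positivity)
        · have hL1 : 0 < L := not_le.1 hL0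
          rw [le_div_iff₀ hpos]
          have h2 : (L * δ) * L ≤ 1 * L := by
            have h3 : (L * δ) * L = δ * L ^ 2 := by ring
            rw [h3, one_mul]
            exact h1
          exact le_of_mul_le_mul_right h2 hL1
    apply not_summable_one_div_on_primes
    refine Summable.of_nonneg_of_le (fun p => ?_) (fun p => ?_) ((hsum.mul_left 2).add hs)
    · exact Set.indicator_nonneg (fun n _ => by positivity) p
    · by_cases hp : p.Prime
      · rw [Set.indicator_of_mem (show p ∈ {p : ℕ | p.Prime} from hp)]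
        have hp0 : (0 : ℝ) < p := by exact_mod_cast hp.pos
        by_cases h0 : (u p : ℝ) = 0
        · have h1 : p.Prime ∧ FF u p = 0 := ⟨hp, by rw [FF_nat u p hp.pos]; exact h0⟩
          have h2 : ¬ (p.Prime ∧ (u p : ℝ) ≠ 0) := fun h => h.2 h0
          rw [if_pos h1, if_neg h2, add_zero]
          have h3 := vv_nonneg p hp
          have h4 : (1 : ℝ) / p = 2 * (1 / (2 * p)) := by
            field_simp
          rw [h4]
          exact mul_le_mul_of_nonneg_left h3 (by norm_num)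
        · have h1 : ¬ (p.Prime ∧ FF u p = 0) := fun h => h0 (by
            rw [FF_nat u p hp.pos] at h
            exact h.2)
          rw [if_neg h1, if_pos (⟨hp, h0⟩ : p.Prime ∧ (u p : ℝ) ≠ 0), mul_zero, zero_add]
      · have h1 : ¬ (p.Prime ∧ FF u p = 0) := fun h => hp h.1
        have h2 : ¬ (p.Prime ∧ (u p : ℝ) ≠ 0) := fun h => hp h.1
        rw [Set.indicator_of_notMem (show p ∉ {p : ℕ | p.Prime} from hp), if_neg h1, if_neg h2,
          mul_zero, zero_add]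
  -- the coordinates
  rw [ae_all_iff]
  intro k
  have hyc : Continuous fun x : X => (x k : ℝ) ^ 2 :=
    (continuous_subtype_val.comp (continuous_apply k)).pow 2
  have h1 : M.E (fun ω => FF u (ω 0 + k) ^ 2) = ∫ x, (x k : ℝ) ^ 2 ∂κ := by
    refine hE (fun n => FF u (n + k) ^ 2) 1 _ (fun n => hF2 _) ?_
    refine (hF ⟨_, hyc⟩).congr fun j => ?_
    congr 1
    refine sum_congr rfl fun n _ => ?_
    change ((pt u n k : I1) : ℝ) ^ 2 / n = FF u ((n : ℤ) + k) ^ 2 / n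
    rw [Pool.Agent.H12.RP.pt_val]
  have h2 : M.E (fun ω => FF u (ω 0 + k) ^ 2) = M.E (fun ω => FF u (ω 0) ^ 2) :=
    M.shift (fun _ => k) (fun ω => FF u (ω 0) ^ 2) hb
  rw [h2, ← hδ, hδz] at h1
  have h3 : (fun x : X => (x k : ℝ) ^ 2) =ᵐ[κ] 0 := by
    refine (integral_eq_zero_iff_of_nonneg (fun x => sq_nonneg _) ?_).1 h1.symm
    exact int_y κ k 2
  filter_upwards [h3] with x hx
  have h4 : (x k : ℝ) ^ 2 = 0 := hx
  exact pow_eq_zero_iff (two_ne_zero) |>.1 h4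

/-- the prediction of the coordinates, for all `u` -/
theorem set_all (u : ℕ → I1) (hu : IsMult u)
    (hv : ∀ n, (u n : ℝ) = -1 ∨ (u n : ℝ) = 0 ∨ (u n : ℝ) = 1)
    (κ : Measure X) [IsProbabilityMeasure κ] (hκ : QuasiGeneric u κ) (m : ℤ) (ψ : I1 → ℝ) :
    κ[fun x => ψ (x m) | past (m - 1)] =ᵐ[κ] κ[fun x => ψ (x m) | remote] := by
  obtain ⟨hS, hT⟩ := Pool.Agent.H2.RP.pf_MP u hv κ hκ
  by_cases hs : Summable (fun p : ℕ => if p.Prime ∧ (u p : ℝ) ≠ 0 then (1 : ℝ) / p else 0)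
  · have h1 : (fun x : X => ψ (x m)) =ᵐ[κ] fun _ => ψ z1 := by
      filter_upwards [zero_ae u hu hv hs κ hκ] with x hx
      have h2 : x m = z1 := Subtype.ext (hx m)
      rw [h2]
    have h2 := condExp_congr_ae (m := past (m - 1)) h1
    have h3 := condExp_congr_ae (m := remote) h1
    rw [condExp_const (past_le _)] at h2
    rw [condExp_const remote_le] at h3
    exact h2.trans h3.symm
  · have hstar : Star κ := Pool.Agent.H12.RP.pf_ST Pool.Agent.H14.RP.pf_MW Pool.Agent.H12.RP.pf_AR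
      u hu hv hs κ hκ
    exact Pool.Agent.H19.RP.pf_SET (Pool.Agent.H96.RP.pf_PRD pf_APX Pool.Agent.H35.RP.pf_PYT)
      Pool.Agent.H19.RP.pf_TAI κ hS hstar hT m ψ

/-- the theorem for all multiplicative functions with values in `{-1, 0, 1}` -/
theorem all (u : ℕ → I1) (hu : IsMult u)
    (hv : ∀ n, (u n : ℝ) = -1 ∨ (u n : ℝ) = 0 ∨ (u n : ℝ) = 1)
    (κ : Measure X) [IsProbabilityMeasure κ] (hκ : QuasiGeneric u κ) :
    iCondIndepFun remote remote_le (fun (n : ℤ) (x : X) => x n) κ ∧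
    (∀ (m : ℤ) (B : Set I1), MeasurableSet B →
      κ⟦(fun x : X => x m) ⁻¹' B | past (m - 1)⟧ =ᵐ[κ] κ⟦(fun x : X => x m) ⁻¹' B | remote⟧) ∧
    (∀ A : Set X, MeasurableSet A → S ⁻¹' A = A →
      ∃ A' : Set X, MeasurableSet[remote] A' ∧ A =ᵐ[κ] A') ∧
    (∀ᵐ x ∂κ, iCondIndepFun remote remote_le (fun (n : ℤ) (y : X) => y n) (comp κ x) ∧
      ∀ n : ℤ, P κ n =ᵐ[comp κ x] P (comp κ x) n) ∧
    (∀ (q : ℤ) (A : Set X), MeasurableSet[remote] A →
      ∃ A' : Set X, MeasurableSet[bias κ q] A' ∧ A =ᵐ[κ] A') ∧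
    (∀ (s : Finset ℤ) (i j : ℤ → ℕ) (ε : ℝ), 0 < ε →
      Summable fun p : ℕ => if p.Prime ∧ (u p : ℝ) ≠ 0 ∧ ε ≤
        |∫ x, ∏ n ∈ s, ((x (p * n) : ℝ) ^ i n * P κ (p * n) x ^ j n) ∂κ -
          (u p : ℝ) ^ (∑ n ∈ s, (i n + j n)) *
            ∫ x, ∏ n ∈ s, ((x n : ℝ) ^ i n * P κ n x ^ j n) ∂κ|
        then (1 : ℝ) / p else 0) ∧
    ((∀ (s : Finset ℤ) (n : ℤ) (e : ℤ → ℕ), n ∉ s →
      ∫ x, (x n : ℝ) * ∏ k ∈ s, (x k : ℝ) ^ e k ∂κ = 0) ↔ P κ 0 =ᵐ[κ] 0) := by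
  obtain ⟨hS, hT⟩ := Pool.Agent.H2.RP.pf_MP u hv κ hκ
  have hstarS : StarS u κ := pf_STS Pool.Agent.H14.RP.pf_MW Pool.Agent.H12.RP.pf_AR u hu hv κ hκ
  have hset := set_all u hu hv κ hκ
  have hset' : ∀ (m : ℤ) (ψ : I1 → ℝ), Measurable ψ → (∀ a, |ψ a| ≤ 1) →
      κ[fun x => ψ (x m) | past (m - 1)] =ᵐ[κ] κ[fun x => ψ (x m) | remote] :=
    fun m ψ _ _ => hset m ψ
  have hind := Pool.Agent.H17.RP.pf_IND κ hset'
  have hinv := Pool.Agent.H85.RP.pf_INV Pool.Agent.H17.RP.pf_APF Pool.Agent.H35.RP.pf_PYT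
    Pool.Agent.H19.RP.pf_TAI κ hS
  obtain ⟨hc1, hc2⟩ := pf_comp κ hT hset' hinv
  refine ⟨hind, ?_, ?_, ?_, ?_, ?_, Pool.Agent.H85.RP.pf_CHO κ hS hT hset' hind⟩
  · intro m B _
    exact hset m (B.indicator fun _ => (1 : ℝ))
  · intro A hA hAi
    exact set_version κ remote A _ stronglyMeasurable_condExp.measurable (hinv A hA hAi).symm
  · have h1 : ∀ᵐ x ∂κ, ∀ n : ℤ, P κ n =ᵐ[comp κ x] P (comp κ x) n := by
      rw [ae_all_iff]
      intro n
      exact hc2 n (fun t => (t : ℝ)) measurable_subtype_coe fun t => abs_le.2 t.2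
    filter_upwards [hc1, h1] with x hx hx1
    exact ⟨Pool.Agent.H17.RP.pf_IND (comp κ x) hx, hx1⟩
  · intro q A hA
    obtain ⟨h, hh, hAh⟩ := Pool.Agent.H95.RP.pf_GEN pf_APX κ hT hind
      (A.indicator fun _ => (1 : ℝ)) 1 (measurable_const.indicator hA) (fun x => by
        by_cases hx : x ∈ A
        · rw [Set.indicator_of_mem hx, abs_one]
        · rw [Set.indicator_of_notMem hx, abs_zero]
          exact zero_le_one) q
    exact set_version κ (bias κ q) A h hh hAh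
  · intro s i j ε hε
    exact pf_DIL pf_APX u hv κ hS hstarS (hset 0 fun t => (t : ℝ)) s i j ε hε

end Pool.Agent.H36.RP
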