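import Pool.Agent.H82.RP.TB

/-!
# MP_76b9e7_nt, board rpw_modules, row DGI: the diagonal form
-/

set_option autoImplicit false

open Finset Real ArithmeticFunction
open scoped Nat ArithmeticFunction.Moebius

namespace Pool.Agent.H36.RP

open Pool.Agent.H82.RP
open Pool.Agent.H31.MP (RS Rgh Pz Me Om Lam1 QF1)

theorem mem_RS {z Y : ℝ} {a : ℕ} : a ∈ RS z Y ↔ (1 ≤ a ∧ a ≤ ⌊Y⌋₊) ∧ Rgh z a := by
  classical
  unfold RS
  rw [mem_filter, mem_Icc]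

theorem RS_dvd {z Y : ℝ} {a r : ℕ} (ha : a ∈ RS z Y) (h : r ∣ a) : r ∈ RS z Y := by
  rw [mem_RS] at ha ⊢
  have hr : 0 < r := Nat.pos_of_dvd_of_pos h ha.1.1
  exact ⟨⟨hr, (Nat.le_of_dvd ha.1.1 h).trans ha.1.2⟩, ha.2.1.squarefree_of_dvd h,
    fun p hp hpr => ha.2.2 p hp (hpr.trans h)⟩

theorem mem_BG {I : Type} [Fintype I] [DecidableEq I] {z Y : ℝ} {d : I → ℕ} :
    d ∈ BG I z Y ↔ ∀ i, d i ∈ RS z Y := by
  unfold BG
  rw [Fintype.mem_piFinset]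

theorem gcd_sum {I : Type} [Fintype I] [DecidableEq I] {z Y : ℝ} {d e : I → ℕ}
    (hd : d ∈ BG I z Y) :
    ∑ r ∈ (BG I z Y).filter (fun r => (∀ i, r i ∣ d i) ∧ ∀ i, r i ∣ e i),
      (∏ i, ((r i).totient : ℝ)) = ∏ i, ((Nat.gcd (d i) (e i) : ℕ) : ℝ) := by
  classical
  have h1 : ∏ i, ((Nat.gcd (d i) (e i) : ℕ) : ℝ) =
      ∏ i, ∑ a ∈ (Nat.gcd (d i) (e i)).divisors, (a.totient : ℝ) := by
    refine Finset.prod_congr rfl fun i _ => ?_
    rw [← Nat.cast_sum, Nat.sum_totient]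
  rw [h1, Finset.prod_univ_sum]
  refine Finset.sum_congr ?_ fun _ _ => rfl
  ext r
  rw [mem_filter, Fintype.mem_piFinset, mem_BG]
  constructor
  · rintro ⟨_, h2, h3⟩ i
    rw [Nat.mem_divisors]
    have hdi := (mem_RS.1 (mem_BG.1 hd i)).1.1
    exact ⟨Nat.dvd_gcd (h2 i) (h3 i), (Nat.gcd_pos_of_pos_left _ hdi).ne'⟩
  · intro h
    have h2 : ∀ i, r i ∣ d i := fun i =>
      (Nat.dvd_of_mem_divisors (h i)).trans (Nat.gcd_dvd_left _ _)
    have h3 : ∀ i, r i ∣ e i := fun i =>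
      (Nat.dvd_of_mem_divisors (h i)).trans (Nat.gcd_dvd_right _ _)
    exact ⟨fun i => RS_dvd (mem_BG.1 hd i) (h2 i), h2, h3⟩

theorem pf_DGI : T_DGI := by
  classical
  intro I _ _ z Y l l'
  unfold QB
  have hR : ∀ r ∈ BG I z Y, (∏ i, ((r i).totient : ℝ)) *
      ((∑ d ∈ BG I z Y, if ∀ i, r i ∣ d i then l d / ∏ i, (d i : ℝ) else 0) *
        (∑ d ∈ BG I z Y, if ∀ i, r i ∣ d i then l' d / ∏ i, (d i : ℝ) else 0)) =
      ∑ d ∈ BG I z Y, ∑ e ∈ BG I z Y,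
        (if (∀ i, r i ∣ d i) ∧ ∀ i, r i ∣ e i then (∏ i, ((r i).totient : ℝ)) else 0) *
          (l d / (∏ i, (d i : ℝ)) * (l' e / ∏ i, (e i : ℝ))) := by
    intro r _
    rw [Finset.sum_mul_sum, Finset.mul_sum]
    refine Finset.sum_congr rfl fun d _ => ?_
    rw [Finset.mul_sum]
    refine Finset.sum_congr rfl fun e _ => ?_
    by_cases h1 : ∀ i, r i ∣ d i
    · by_cases h2 : ∀ i, r i ∣ e i
      · rw [if_pos h1, if_pos h2, if_pos ⟨h1, h2⟩]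
      · have h3 : ¬ ((∀ i, r i ∣ d i) ∧ ∀ i, r i ∣ e i) := fun h => h2 h.2
        rw [if_pos h1, if_neg h2, if_neg h3, mul_zero, mul_zero, zero_mul]
    · have h3 : ¬ ((∀ i, r i ∣ d i) ∧ ∀ i, r i ∣ e i) := fun h => h1 h.1
      rw [if_neg h1, if_neg h3, zero_mul, mul_zero, zero_mul]
  rw [Finset.sum_congr rfl hR]
  symm
  refine Finset.sum_comm.trans ?_
  refine Finset.sum_congr rfl fun d hd => ?_
  refine Finset.sum_comm.trans ?_
  refine Finset.sum_congr rfl fun e he => ?_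
  rw [← Finset.sum_mul, ← Finset.sum_filter, gcd_sum hd]
  have hd0 : ∏ i, (d i : ℝ) ≠ 0 := by
    refine Finset.prod_ne_zero_iff.2 fun i _ => ?_
    have := (mem_RS.1 (mem_BG.1 hd i)).1.1
    positivity
  have he0 : ∏ i, (e i : ℝ) ≠ 0 := by
    refine Finset.prod_ne_zero_iff.2 fun i _ => ?_
    have := (mem_RS.1 (mem_BG.1 he i)).1.1
    positivity
  have hl0 : ∏ i, (Nat.lcm (d i) (e i) : ℝ) ≠ 0 := by
    refine Finset.prod_ne_zero_iff.2 fun i _ => ?_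
    have h1 := (mem_RS.1 (mem_BG.1 hd i)).1.1
    have h2 := (mem_RS.1 (mem_BG.1 he i)).1.1
    have h3 : 0 < Nat.lcm (d i) (e i) := Nat.lcm_pos h1 h2
    positivity
  have hprod : (∏ i, ((Nat.gcd (d i) (e i) : ℕ) : ℝ)) * (∏ i, (Nat.lcm (d i) (e i) : ℝ)) =
      (∏ i, (d i : ℝ)) * ∏ i, (e i : ℝ) := by
    rw [← Finset.prod_mul_distrib, ← Finset.prod_mul_distrib]
    refine Finset.prod_congr rfl fun i _ => ?_
    rw [← Nat.cast_mul, Nat.gcd_mul_lcm, Nat.cast_mul]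
  field_simp
  linear_combination (l d * l' e) * hprod

end Pool.Agent.H36.RP
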