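import Pool.Agent.H36.RP.STS
import Pool.Agent.H36.RP.CMP2
import Pool.Agent.H35.RP.PYT

/-!
# The dilations of the structured part (MP_c59857_nt)
-/

set_option autoImplicit false

open MeasureTheory ProbabilityTheory Filter Topology Finset

namespace Pool.Agent.H36.RP

open Pool.Agent.H89.MT (I1 X pt z1 o1 m1 IsMult)
open Pool.Agent.H12.RP (dil_cont)

/-- the powers of the shift -/
def sh (n : ℤ) (x : X) : X := fun k => x (k + n)

theorem sh_meas (n : ℤ) : Measurable (sh n) :=
  measurable_pi_iff.2 fun k => measurable_pi_apply (k + n)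

theorem sh_cont (n : ℤ) : Continuous (sh n) :=
  continuous_pi fun k => continuous_apply (k + n)

theorem sh_sh (n m : ℤ) (x : X) : sh n (sh m x) = sh (n + m) x := by
  funext k
  unfold sh
  rw [add_assoc]

theorem sh_zero (x : X) : sh 0 x = x := by
  funext k
  unfold sh
  rw [add_zero]

theorem iter_sh (N : ℕ) : S^[N] = sh N := by
  funext x
  induction N generalizing x with
  | zero => rw [Function.iterate_zero, id, Nat.cast_zero, sh_zero]
  | succ N ih =>
    rw [Function.iterate_succ_apply, ih]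
    have h1 : S x = sh 1 x := rfl
    rw [h1, sh_sh]
    push_cast
    rfl

theorem sh_mp (κ : Measure X) (hS : MeasurePreserving S κ κ) (n : ℤ) :
    MeasurePreserving (sh n) κ κ := by
  have h1 : ∀ n : ℕ, MeasurePreserving (sh n) κ κ := by
    intro n
    have h2 := hS.iterate n
    rwa [iter_sh] at h2
  obtain ⟨m, h | h⟩ := Int.eq_nat_or_neg n
  · rw [h]
    exact h1 m
  · rw [h]
    refine ⟨sh_meas _, ?_⟩
    have h2 := (h1 m).map_eq
    have h3 : (κ.map (sh m)).map (sh (-m)) = κ := by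
      rw [Measure.map_map (sh_meas _) (sh_meas _)]
      have h4 : sh (-(m : ℤ)) ∘ sh m = id := by
        funext x
        simp only [Function.comp_apply, id]
        rw [sh_sh, neg_add_cancel, sh_zero]
      rw [h4, Measure.map_id]
    rw [h2] at h3
    exact h3

theorem int_sh (κ : Measure X) (hS : MeasurePreserving S κ κ) (n : ℤ) (f : X → ℝ)
    (hf : Measurable f) : ∫ x, f (sh n x) ∂κ = ∫ x, f x ∂κ := by
  have h := sh_mp κ hS n
  have h1 : ∫ x, f x ∂(κ.map (sh n)) = ∫ x, f (sh n x) ∂κ :=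
    integral_map h.measurable.aemeasurable hf.aestronglyMeasurable
  rw [← h1, h.map_eq]

theorem sh_past (q n : ℤ) {A : Set X} (hA : MeasurableSet[past q] A) :
    MeasurableSet[past (q + n)] (sh n ⁻¹' A) := by
  obtain ⟨B, hB, rfl⟩ := past_set hA
  have h : Measurable[past (q + n)] (fun x => cut q (sh n x)) := by
    refine @measurable_pi_lambda X ℤ (fun _ => I1) (past (q + n)) (fun _ => inferInstance) _ ?_
    intro k
    by_cases hk : k ≤ q
    · have h1 : (fun x : X => cut q (sh n x) k) = fun x : X => x (k + n) := by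
        funext x
        exact if_pos hk
      rw [h1]
      exact meas_coord (by omega)
    · have h1 : (fun x : X => cut q (sh n x) k) = fun _ : X => z1 := by
        funext x
        exact if_neg hk
      rw [h1]
      exact measurable_const
  exact h hB

theorem sh_remote (n : ℤ) {A : Set X} (hA : MeasurableSet[remote] A) :
    MeasurableSet[remote] (sh n ⁻¹' A) := by
  unfold remote at hA ⊢
  rw [MeasurableSpace.measurableSet_iInf] at hA ⊢
  intro q
  have h1 := sh_past (q - n) n (hA (q - n))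
  rwa [sub_add_cancel] at h1

/-- the structured part along the shifts -/
theorem cond_sh (κ : Measure X) [IsProbabilityMeasure κ] (hS : MeasurePreserving S κ κ)
    (V : X → ℝ) (hVm : Measurable[remote] V) (hV1 : ∀ x, |V x| ≤ 1)
    (hV : κ[fun x => (x 0 : ℝ) | remote] =ᵐ[κ] V) (n : ℤ) :
    κ[fun x => (x n : ℝ) | remote] =ᵐ[κ] fun x => V (sh n x) := by
  have hVm' : Measurable V := hVm.mono remote_le le_rfl
  have hyi : ∀ m : ℤ, Integrable (fun x : X => (x m : ℝ)) κ := by
    intro m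
    have h1 := int_y κ m 1
    simp only [pow_one] at h1
    exact h1
  have hsm : Measurable[remote] fun x => V (sh n x) := by
    intro B hB
    exact sh_remote n (hVm hB)
  have hVi : Integrable (fun x => V (sh n x)) κ :=
    Integrable.of_bound (hVm'.comp (sh_meas n)).aestronglyMeasurable 1
      (Eventually.of_forall fun x => hV1 _)
  refine (ae_eq_condExp_of_forall_setIntegral_eq remote_le (hyi n) ?_ ?_ ?_).symm
  · intro A _ _
    exact hVi.integrableOn
  · intro A hA _
    have hAm : MeasurableSet A := remote_le A hA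
    have hA' : MeasurableSet[remote] (sh (-n) ⁻¹' A) := sh_remote (-n) hA
    have hAm' : MeasurableSet (sh (-n) ⁻¹' A) := remote_le _ hA'
    have h1 : ∀ f : X → ℝ, Measurable f →
        ∫ x in A, f (sh n x) ∂κ = ∫ x in sh (-n) ⁻¹' A, f x ∂κ := by
      intro f hf
      rw [← integral_indicator hAm, ← integral_indicator hAm',
        ← int_sh κ hS n _ (hf.indicator hAm')]
      congr 1
      funext x
      have h2 : sh n x ∈ sh (-n) ⁻¹' A ↔ x ∈ A := by
        rw [Set.mem_preimage, sh_sh, neg_add_cancel, sh_zero]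
      by_cases hx : x ∈ A
      · rw [Set.indicator_of_mem hx, Set.indicator_of_mem (h2.2 hx)]
      · rw [Set.indicator_of_notMem hx, Set.indicator_of_notMem (fun h => hx (h2.1 h))]
    have h3 : ∫ x in A, (x n : ℝ) ∂κ = ∫ x in A, ((sh n x) 0 : ℝ) ∂κ := by
      congr 1
      funext x
      unfold sh
      rw [zero_add]
    rw [h3, h1 V hVm', h1 (fun x => (x 0 : ℝ)) (meas_y 0)]
    have h4 : ∫ x in sh (-n) ⁻¹' A, V x ∂κ =
        ∫ x in sh (-n) ⁻¹' A, (κ[fun x => (x 0 : ℝ) | remote]) x ∂κ :=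
      integral_congr_ae (ae_restrict_of_ae hV.symm)
    rw [h4, setIntegral_condExp remote_le (hyi 0) hA']
  · exact hsm.stronglyMeasurable.aestronglyMeasurable

theorem l1_le (κ : Measure X) [IsProbabilityMeasure κ] (f : X → ℝ) (C η : ℝ) (hf : Measurable f)
    (hC : ∀ x, |f x| ≤ C) (hη : 0 < η) (h : ∫ x, f x ^ 2 ∂κ ≤ η ^ 2) : ∫ x, |f x| ∂κ ≤ η := by
  have hC0 : 0 ≤ C := (abs_nonneg _).trans (hC (fun _ => z1))
  have h1 : ∀ x, |f x| ≤ f x ^ 2 / (2 * η) + η / 2 := by
    intro x
    rw [← sq_abs (f x)]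
    have h2 : 0 ≤ (|f x| - η) ^ 2 := sq_nonneg _
    have h3 : |f x| ^ 2 / (2 * η) + η / 2 = (|f x| ^ 2 + η ^ 2) / (2 * η) := by
      field_simp
    rw [h3, le_div_iff₀ (by positivity)]
    nlinarith
  have hi : Integrable (fun x => f x ^ 2) κ := by
    refine Integrable.of_bound (hf.pow_const 2).aestronglyMeasurable (C ^ 2)
      (Eventually.of_forall fun x => ?_)
    rw [Real.norm_eq_abs, abs_pow]
    exact pow_le_pow_left₀ (abs_nonneg _) (hC x) 2
  have hi1 : Integrable (fun x => |f x|) κ :=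
    Integrable.of_bound hf.abs.aestronglyMeasurable C
      (Eventually.of_forall fun x => by rw [Real.norm_eq_abs, abs_abs]; exact hC x)
  calc ∫ x, |f x| ∂κ ≤ ∫ x, (f x ^ 2 / (2 * η) + η / 2) ∂κ :=
        integral_mono hi1 ((hi.div_const _).add (integrable_const _)) h1
    _ = (∫ x, f x ^ 2 ∂κ) / (2 * η) + η / 2 := by
        rw [integral_add (hi.div_const _) (integrable_const _), integral_div]
        simp
    _ ≤ η ^ 2 / (2 * η) + η / 2 := by
        have h4 := div_le_div_of_nonneg_right h (by positivity : (0 : ℝ) ≤ 2 * η)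
        linarith
    _ = η := by
        field_simp
        ring

theorem pow_diff (a b : ℝ) (ha : |a| ≤ 1) (hb : |b| ≤ 1) (j : ℕ) :
    |a ^ j - b ^ j| ≤ j * |a - b| := by
  induction j with
  | zero => simp
  | succ j ih =>
    have h1 : a ^ (j + 1) - b ^ (j + 1) = a ^ j * (a - b) + (a ^ j - b ^ j) * b := by ring
    have h2 : |a ^ j| ≤ 1 := by
      rw [abs_pow]
      exact pow_le_one₀ (abs_nonneg _) ha
    rw [h1]
    refine (abs_add_le _ _).trans ?_
    rw [abs_mul, abs_mul]
    push_cast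
    have h3 : |a ^ j| * |a - b| ≤ 1 * |a - b| := mul_le_mul_of_nonneg_right h2 (abs_nonneg _)
    have h4 : |a ^ j - b ^ j| * |b| ≤ |a ^ j - b ^ j| * 1 :=
      mul_le_mul_of_nonneg_left hb (abs_nonneg _)
    linarith

theorem prod_diff (s : Finset ℤ) (f g : ℤ → ℝ) (hf : ∀ n, |f n| ≤ 1) (hg : ∀ n, |g n| ≤ 1) :
    |∏ n ∈ s, f n - ∏ n ∈ s, g n| ≤ ∑ n ∈ s, |f n - g n| := by
  classical
  induction s using Finset.induction_on with
  | empty => simp
  | insert a s ha ih =>
    rw [prod_insert ha, prod_insert ha, sum_insert ha]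
    have h1 : f a * ∏ n ∈ s, f n - g a * ∏ n ∈ s, g n =
        (f a - g a) * ∏ n ∈ s, f n + g a * (∏ n ∈ s, f n - ∏ n ∈ s, g n) := by ring
    have h2 : |∏ n ∈ s, f n| ≤ 1 := by
      rw [abs_prod]
      exact prod_le_one (fun n _ => abs_nonneg _) fun n _ => hf n
    rw [h1]
    refine (abs_add_le _ _).trans ?_
    rw [abs_mul, abs_mul]
    have h3 : |f a - g a| * |∏ n ∈ s, f n| ≤ |f a - g a| * 1 :=
      mul_le_mul_of_nonneg_left h2 (abs_nonneg _)
    have h4 : |g a| * |∏ n ∈ s, f n - ∏ n ∈ s, g n| ≤ 1 * |∏ n ∈ s, f n - ∏ n ∈ s, g n| :=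
      mul_le_mul_of_nonneg_right (hg a) (abs_nonneg _)
    linarith

theorem abs_pow_le {a : ℝ} (ha : |a| ≤ 1) (j : ℕ) : |a ^ j| ≤ 1 := by
  rw [abs_pow]
  exact pow_le_one₀ (abs_nonneg _) ha

theorem abs_term {a b : ℝ} (ha : |a| ≤ 1) (hb : |b| ≤ 1) (i j : ℕ) : |a ^ i * b ^ j| ≤ 1 := by
  rw [abs_mul]
  exact mul_le_one₀ (abs_pow_le ha i) (abs_nonneg _) (abs_pow_le hb j)

theorem prod_int (κ : Measure X) [IsProbabilityMeasure κ] (s : Finset ℤ) (i j : ℤ → ℕ)
    (Y A B : ℤ → X → ℝ) (hY : ∀ n, Measurable (Y n)) (hA : ∀ n, Measurable (A n))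
    (hB : ∀ n, Measurable (B n)) (hY1 : ∀ n x, |Y n x| ≤ 1) (hA1 : ∀ n x, |A n x| ≤ 1)
    (hB1 : ∀ n x, |B n x| ≤ 1) (η : ℝ) (h : ∀ n, ∫ x, |A n x - B n x| ∂κ ≤ η) :
    |∫ x, ∏ n ∈ s, (Y n x ^ i n * A n x ^ j n) ∂κ -
      ∫ x, ∏ n ∈ s, (Y n x ^ i n * B n x ^ j n) ∂κ| ≤ (∑ n ∈ s, (j n : ℝ)) * η := by
  have hint : ∀ A : ℤ → X → ℝ, (∀ n, Measurable (A n)) → (∀ n x, |A n x| ≤ 1) →
      Integrable (fun x => ∏ n ∈ s, (Y n x ^ i n * A n x ^ j n)) κ := by
    intro A hA hA1
    refine Integrable.of_bound (C := 1) (Measurable.aestronglyMeasurable ?_)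
      (Eventually.of_forall fun x => ?_)
    · exact Finset.measurable_fun_prod s fun n _ =>
        ((hY n).pow_const _).mul ((hA n).pow_const _)
    · rw [Real.norm_eq_abs, abs_prod]
      exact prod_le_one (fun n _ => abs_nonneg _) fun n _ => abs_term (hY1 n x) (hA1 n x) _ _
  have hd : ∀ n, Integrable (fun x => (j n : ℝ) * |A n x - B n x|) κ := by
    intro n
    refine (Integrable.of_bound (C := 2) ((hA n).sub (hB n)).abs.aestronglyMeasurable
      (Eventually.of_forall fun x => ?_)).const_mul _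
    rw [Real.norm_eq_abs, abs_abs]
    have h1 := abs_sub (A n x) (B n x)
    have h2 := hA1 n x
    have h3 := hB1 n x
    exact h1.trans (by linarith)
  rw [← integral_sub (hint A hA hA1) (hint B hB hB1)]
  refine (abs_integral_le_integral_abs).trans ?_
  calc ∫ x, |∏ n ∈ s, (Y n x ^ i n * A n x ^ j n) - ∏ n ∈ s, (Y n x ^ i n * B n x ^ j n)| ∂κ
      ≤ ∫ x, ∑ n ∈ s, (j n : ℝ) * |A n x - B n x| ∂κ := by
        refine integral_mono ((hint A hA hA1).sub (hint B hB hB1)).abs
          (integrable_finsetSum _ fun n _ => hd n) fun x => ?_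
        refine (prod_diff s _ _ (fun n => abs_term (hY1 n x) (hA1 n x) _ _)
          (fun n => abs_term (hY1 n x) (hB1 n x) _ _)).trans ?_
        refine sum_le_sum fun n _ => ?_
        rw [← mul_sub, abs_mul]
        calc |Y n x ^ i n| * |A n x ^ j n - B n x ^ j n|
            ≤ 1 * (j n * |A n x - B n x|) :=
              mul_le_mul (abs_pow_le (hY1 n x) _) (pow_diff _ _ (hA1 n x) (hB1 n x) _)
                (abs_nonneg _) zero_le_one
          _ = _ := one_mul _
    _ = ∑ n ∈ s, (j n : ℝ) * ∫ x, |A n x - B n x| ∂κ := by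
        rw [integral_finsetSum _ fun n _ => hd n]
        exact sum_congr rfl fun n _ => integral_const_mul _ _
    _ ≤ ∑ n ∈ s, (j n : ℝ) * η :=
        sum_le_sum fun n _ => mul_le_mul_of_nonneg_left (h n) (Nat.cast_nonneg _)
    _ = _ := by rw [sum_mul]

end Pool.Agent.H36.RP
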