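import Pool.Agent.H36.RP.DIL

/-!
# The dilations of the structured part, conclusion (MP_c59857_nt)
-/

set_option autoImplicit false

open MeasureTheory ProbabilityTheory Filter Topology Finset

namespace Pool.Agent.H36.RP

open Pool.Agent.H89.MT (I1 X pt z1 o1 m1 IsMult)
open Pool.Agent.H12.RP (dil_cont)
open Pool.Agent.H35.RP (pyth)

theorem bdd_int (κ : Measure X) [IsProbabilityMeasure κ] (f : X → ℝ) (C : ℝ) (hf : Measurable f)
    (hC : ∀ x, |f x| ≤ C) : Integrable f κ :=
  Integrable.of_bound hf.aestronglyMeasurable C (Eventually.of_forall fun x => hC x)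

theorem dil_past (s : I1) (p : ℕ) (hp : 1 ≤ p) (φ : X → ℝ) (hφ : Measurable[past (-1)] φ) :
    Measurable[past (-1)] fun x => φ (dil s p x) := by
  intro A hA
  obtain ⟨B, hB, hBA⟩ := past_set (hφ hA)
  have h : Measurable[past (-1)] (fun x => cut (-1) (dil s p x)) := by
    refine @measurable_pi_lambda X ℤ (fun _ => I1) (past (-1)) (fun _ => inferInstance) _ ?_
    intro k
    by_cases hk : k ≤ -1
    · have h1 : (fun x : X => cut (-1) (dil s p x) k) = fun x : X => mulI s (x (p * k)) := by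
        funext x
        exact if_pos hk
      rw [h1]
      have h2 : (p : ℤ) * k ≤ -1 := by
        have h3 : (1 : ℤ) ≤ p := by exact_mod_cast hp
        nlinarith
      have h3 : Measurable (mulI s) := by
        unfold mulI
        exact Measurable.subtype_mk (measurable_const.mul measurable_subtype_coe)
      exact h3.comp (meas_coord h2)
    · have h1 : (fun x : X => cut (-1) (dil s p x) k) = fun _ : X => z1 := by
        funext x
        exact if_neg hk
      rw [h1]
      exact measurable_const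
  have h4 : (fun x => φ (dil s p x)) ⁻¹' A = (fun x => cut (-1) (dil s p x)) ⁻¹' B := by
    have h5 : (fun x => φ (dil s p x)) ⁻¹' A = dil s p ⁻¹' (φ ⁻¹' A) := rfl
    rw [h5, ← hBA]
    rfl
  rw [h4]
  exact h hB

/-- the structured part and its approximation -/
theorem dil_est (hAPX : T_APX) (κ : Measure X) [IsProbabilityMeasure κ] (V : X → ℝ)
    (hVm : Measurable[past (-1)] V) (hV1 : ∀ x, |V x| ≤ 1)
    (hV : κ[fun x => (x 0 : ℝ) | past (-1)] =ᵐ[κ] V) (η : ℝ) (hη : 0 < η) :
    ∃ (φ : X → ℝ) (H : ℕ), Continuous φ ∧ Local H φ ∧ (∀ x, |φ x| ≤ 1) ∧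
      ∫ x, |φ x - V x| ∂κ ≤ η ∧
      ∀ (p : ℕ) (s : I1), 1 ≤ p → (s : ℝ) ^ 2 = 1 →
        |∫ x, ((dil s p x 0 : ℝ) - φ (dil s p x)) ^ 2 ∂κ - ∫ x, ((x 0 : ℝ) - φ x) ^ 2 ∂κ| <
          η ^ 2 / 2 →
        ∫ x, |φ (dil s p x) - s * V x| ∂κ ≤ η := by
  obtain ⟨φ₀, H, hc, hm, hl, hi⟩ := hAPX κ (-1) V 1 hVm hV1 (η ^ 2 / 2) (by positivity)
  have hVm' : Measurable V := hVm.mono (past_le _) le_rfl
  set φ : X → ℝ := fun x => max (-1) (min 1 (φ₀ x)) with hφ
  have hφc : Continuous φ := continuous_const.max (continuous_const.min hc)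
  have hφm : Measurable[past (-1)] φ := measurable_const.max (measurable_const.min hm)
  have hφl : Local H φ := by
    intro x x' h
    simp only [hφ]
    rw [hl x x' h]
  have hφ1 : ∀ x, |φ x| ≤ 1 := fun x =>
    abs_le.2 ⟨le_max_left _ _, max_le (by norm_num) (min_le_left _ _)⟩
  have hdist : ∀ x, (V x - φ x) ^ 2 ≤ (V x - φ₀ x) ^ 2 := by
    intro x
    obtain ⟨h1, h2⟩ := abs_le.1 (hV1 x)
    rw [← sq_abs (V x - φ x), ← sq_abs (V x - φ₀ x)]
    refine pow_le_pow_left₀ (abs_nonneg _) ?_ 2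
    simp only [hφ]
    rcases le_total (φ₀ x) (-1) with h3 | h3
    · rw [min_eq_right (by linarith), max_eq_left h3, abs_of_nonneg (by linarith),
        abs_of_nonneg (by linarith)]
      linarith
    · rcases le_total (φ₀ x) 1 with h4 | h4
      · rw [min_eq_right h4, max_eq_right h3]
      · rw [min_eq_left h4, max_eq_right (by norm_num), abs_of_nonpos (by linarith),
          abs_of_nonpos (by linarith)]
        linarith
  have hB0 : ∃ B : ℝ, ∀ x, |φ₀ x| ≤ B := by
    obtain ⟨B, hB⟩ := (isCompact_range hc).isBounded.exists_norm_le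
    exact ⟨B, fun x => hB _ ⟨x, rfl⟩⟩
  obtain ⟨B, hB⟩ := hB0
  have hsq : ∀ (f : X → ℝ) (C : ℝ), Measurable f → (∀ x, |f x| ≤ C) →
      Integrable (fun x => f x ^ 2) κ := by
    intro f C hf hC
    refine bdd_int κ _ (C ^ 2) (hf.pow_const 2) fun x => ?_
    rw [abs_pow]
    exact pow_le_pow_left₀ (abs_nonneg _) (hC x) 2
  have hi2 : ∫ x, (V x - φ x) ^ 2 ∂κ ≤ η ^ 2 / 2 := by
    refine (integral_mono ?_ ?_ hdist).trans hi
    · exact hsq (fun x => V x - φ x) 2 (hVm'.sub hφc.measurable) fun x => by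
        have h1 := abs_sub (V x) (φ x)
        have h2 := hV1 x
        have h3 := hφ1 x
        exact h1.trans (by linarith)
    · exact hsq (fun x => V x - φ₀ x) (1 + B) (hVm'.sub hc.measurable) fun x => by
        have h1 := abs_sub (V x) (φ₀ x)
        have h2 := hV1 x
        have h3 := hB x
        exact h1.trans (by linarith)
  refine ⟨φ, H, hφc, hφl, hφ1, ?_, ?_⟩
  · have h1 : ∫ x, |V x - φ x| ∂κ ≤ η := by
      refine l1_le κ (fun x => V x - φ x) 2 η (hVm'.sub hφc.measurable) (fun x => ?_) hη ?_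
      · have h1 := abs_sub (V x) (φ x)
        have h2 := hV1 x
        have h3 := hφ1 x
        exact h1.trans (by linarith)
      · have h4 : η ^ 2 / 2 ≤ η ^ 2 := by
          have : 0 ≤ η ^ 2 := sq_nonneg _
          linarith
        exact hi2.trans h4
    refine le_trans (le_of_eq ?_) h1
    congr 1
    funext x
    exact abs_sub_comm _ _
  · intro p s hp hs hlt
    have hdc : Measurable (dil s p) := (dil_cont s p).measurable
    have hs1 : |(s : ℝ)| = 1 := by
      have h2 : (s : ℝ) = 1 ∨ (s : ℝ) = -1 := by simpa using hs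
      rcases h2 with h2 | h2
      · rw [h2, abs_one]
      · rw [h2, abs_neg, abs_one]
    -- the predictor
    set h : X → ℝ := fun x => s * φ (dil s p x) with hh
    have hhm : Measurable[past (-1)] h := (dil_past s p hp φ hφm).const_mul _
    have hh1 : ∀ x, |h x| ≤ 1 := by
      intro x
      simp only [hh]
      rw [abs_mul, hs1, one_mul]
      exact hφ1 _
    have hhm' : Measurable h := hhm.mono (past_le _) le_rfl
    have e1 : ∀ x, ((dil s p x 0 : ℝ) - φ (dil s p x)) ^ 2 = ((x 0 : ℝ) - h x) ^ 2 := by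
      intro x
      have h2 : (dil s p x 0 : ℝ) = s * (x 0 : ℝ) := by
        unfold dil mulI
        simp only [mul_zero]
      rw [h2]
      simp only [hh]
      have h3 : (s : ℝ) * (x 0 : ℝ) - φ (dil s p x) =
          s * ((x 0 : ℝ) - s * φ (dil s p x)) := by
        have h4 : (s : ℝ) * (s * φ (dil s p x)) = (s : ℝ) ^ 2 * φ (dil s p x) := by ring
        rw [mul_sub, h4, hs, one_mul]
      rw [h3, mul_pow, hs, one_mul]
    have hy : ∀ x : X, |(x 0 : ℝ)| ≤ 1 := fun x => abs_y x 0
    have p1 := pyth (μ := κ) (past_le (-1)) (meas_y 0) hy hhm.stronglyMeasurable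
      (Eventually.of_forall hh1)
    have p2 := pyth (μ := κ) (past_le (-1)) (meas_y 0) hy hφm.stronglyMeasurable
      (Eventually.of_forall hφ1)
    have e2 : ∫ x, ((κ[fun x => (x 0 : ℝ) | past (-1)]) x - h x) ^ 2 ∂κ =
        ∫ x, (V x - h x) ^ 2 ∂κ := by
      refine integral_congr_ae ?_
      filter_upwards [hV] with x hx
      rw [hx]
    have e3 : ∫ x, ((κ[fun x => (x 0 : ℝ) | past (-1)]) x - φ x) ^ 2 ∂κ =
        ∫ x, (V x - φ x) ^ 2 ∂κ := by
      refine integral_congr_ae ?_
      filter_upwards [hV] with x hx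
      rw [hx]
    have e4 : ∫ x, ((dil s p x 0 : ℝ) - φ (dil s p x)) ^ 2 ∂κ = ∫ x, ((x 0 : ℝ) - h x) ^ 2 ∂κ := by
      congr 1
      funext x
      exact e1 x
    rw [e4] at hlt
    have h5 := (abs_lt.1 hlt).2
    have h6 : ∫ x, (V x - h x) ^ 2 ∂κ ≤ η ^ 2 := by
      rw [← e2]
      rw [e3] at p2
      linarith
    have h7 : ∫ x, |V x - h x| ∂κ ≤ η := by
      refine l1_le κ (fun x => V x - h x) 2 η (hVm'.sub hhm') (fun x => ?_) hη h6
      have h1 := abs_sub (V x) (h x)
      have h2 := hV1 x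
      have h3 := hh1 x
      exact h1.trans (by linarith)
    refine le_trans (le_of_eq ?_) h7
    congr 1
    funext x
    have h8 : V x - h x = s * (s * V x - φ (dil s p x)) := by
      simp only [hh]
      have h4 : (s : ℝ) * (s * V x) = (s : ℝ) ^ 2 * V x := by ring
      rw [mul_sub, h4, hs, one_mul]
    rw [h8, abs_mul, hs1, one_mul, abs_sub_comm]

end Pool.Agent.H36.RP
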