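import Pool.Agent.H36.RP.DIL2

/-!
# The dilations of the pair of the coordinates and the structured part (MP_c59857_nt)
-/

set_option autoImplicit false

open MeasureTheory ProbabilityTheory Filter Topology Finset

namespace Pool.Agent.H36.RP

open Pool.Agent.H89.MT (I1 X pt z1 o1 m1 IsMult)
open Pool.Agent.H12.RP (dil_cont)

theorem pf_DIL (hAPX : T_APX) (u : ℕ → I1)
    (hu : ∀ n, (u n : ℝ) = -1 ∨ (u n : ℝ) = 0 ∨ (u n : ℝ) = 1)
    (κ : Measure X) [IsProbabilityMeasure κ] (hS : MeasurePreserving S κ κ) (hstar : StarS u κ)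
    (hset : κ[fun x => (x 0 : ℝ) | past (-1)] =ᵐ[κ] κ[fun x => (x 0 : ℝ) | remote])
    (s : Finset ℤ) (i j : ℤ → ℕ) (ε : ℝ) (hε : 0 < ε) :
    Summable fun p : ℕ => if p.Prime ∧ (u p : ℝ) ≠ 0 ∧ ε ≤
      |∫ x, ∏ n ∈ s, ((x (p * n) : ℝ) ^ i n *
          (κ[fun y => (y (p * n) : ℝ) | remote]) x ^ j n) ∂κ -
        (u p : ℝ) ^ (∑ n ∈ s, (i n + j n)) *
          ∫ x, ∏ n ∈ s, ((x n : ℝ) ^ i n * (κ[fun y => (y n : ℝ) | remote]) x ^ j n) ∂κ|
      then (1 : ℝ) / p else 0 := by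
  classical
  obtain ⟨V, hVm, hV1, hV⟩ := exists_version κ (fun x => (x 0 : ℝ)) (fun x => abs_y x 0) remote
  have hall : ∀ᵐ x ∂κ, ∀ n : ℤ, (κ[fun y => (y n : ℝ) | remote]) x = V (sh n x) :=
    ae_all_iff.2 fun n => cond_sh κ hS V hVm hV1 hV n
  have hVm' : Measurable V := hVm.mono remote_le le_rfl
  obtain ⟨J, hJ⟩ : ∃ J : ℝ, J = ∑ n ∈ s, (j n : ℝ) := ⟨_, rfl⟩
  have hJ0 : 0 ≤ J := by rw [hJ]; exact sum_nonneg fun n _ => Nat.cast_nonneg _
  obtain ⟨η, hη⟩ : ∃ η : ℝ, η = ε / (4 * (J + 1)) := ⟨_, rfl⟩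
  have hη0 : 0 < η := by rw [hη]; positivity
  have hJη : J * η ≤ ε / 4 := by
    have h1 : (J + 1) * η = ε / 4 := by
      rw [hη]
      field_simp
    nlinarith
  obtain ⟨φ, H, hφc, hφl, hφ1, hφV, hφd⟩ := dil_est hAPX κ V
    (hVm.mono (remote_le_past _) le_rfl) hV1 (hset.trans hV) η hη0
  obtain ⟨N, hN⟩ : ∃ N : ℕ, ∀ n ∈ s, |n| ≤ (N : ℤ) := by
    refine ⟨s.sup Int.natAbs, fun n hn => ?_⟩
    rw [Int.abs_eq_natAbs]
    exact_mod_cast Finset.le_sup (f := Int.natAbs) hn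
  obtain ⟨G1, hG1⟩ : ∃ G1 : X → ℝ, G1 = fun x => ∏ n ∈ s, ((x n : ℝ) ^ i n * φ (sh n x) ^ j n) :=
    ⟨_, rfl⟩
  obtain ⟨G2, hG2⟩ : ∃ G2 : X → ℝ, G2 = fun x => ((x 0 : ℝ) - φ x) ^ 2 := ⟨_, rfl⟩
  have hcy : ∀ n : ℤ, Continuous fun x : X => (x n : ℝ) := fun n =>
    continuous_subtype_val.comp (continuous_apply n)
  have c1 : Continuous G1 := by
    rw [hG1]
    exact continuous_finsetProd s fun n _ =>
      ((hcy n).pow _).mul ((hφc.comp (sh_cont n)).pow _)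
  have c2 : Continuous G2 := by
    rw [hG2]
    exact ((hcy 0).sub hφc).pow 2
  have l1 : Local (H + N) G1 := by
    intro x x' h
    rw [hG1]
    refine prod_congr rfl fun n hn => ?_
    have h1 := hN n hn
    have h2 : x n = x' n := h n (by push_cast; omega)
    have h3 : φ (sh n x) = φ (sh n x') := by
      refine hφl _ _ fun k hk => ?_
      refine h (k + n) ?_
      have h4 := abs_add_le k n
      push_cast
      omega
    rw [h2, h3]
  have l2 : Local H G2 := by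
    intro x x' h
    rw [hG2]
    have h2 : x 0 = x' 0 := h 0 (by simp)
    have h3 : φ x = φ x' := hφl _ _ h
    simp only [h2, h3]
  have T1 := hstar G1 (H + N) c1 l1 (ε / 4) (by positivity)
  have T2 := hstar G2 H c2 l2 (η ^ 2 / 2) (by positivity)
  refine Summable.of_nonneg_of_le (fun p => ?_) (fun p => ?_) (T1.add T2)
  · split_ifs
    · positivity
    · exact le_rfl
  · have hn1 : ∀ P : Prop, ∀ _ : Decidable P, (0 : ℝ) ≤ if P then (1 : ℝ) / p else 0 := by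
      intro P _
      split_ifs
      · positivity
      · exact le_rfl
    by_cases hbad : p.Prime ∧ (u p : ℝ) ≠ 0 ∧ ε ≤
      |∫ x, ∏ n ∈ s, ((x (p * n) : ℝ) ^ i n *
          (κ[fun y => (y (p * n) : ℝ) | remote]) x ^ j n) ∂κ -
        (u p : ℝ) ^ (∑ n ∈ s, (i n + j n)) *
          ∫ x, ∏ n ∈ s, ((x n : ℝ) ^ i n * (κ[fun y => (y n : ℝ) | remote]) x ^ j n) ∂κ|
    swap
    · rw [if_neg hbad]
      exact add_nonneg (hn1 _ _) (hn1 _ _)
    rw [if_pos hbad]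
    obtain ⟨hp, hup, hge⟩ := hbad
    by_cases b1 : ε / 4 ≤ |∫ x, G1 (dil (u p) p x) ∂κ - ∫ x, G1 x ∂κ|
    · rw [if_pos (⟨hp, hup, b1⟩ : p.Prime ∧ (u p : ℝ) ≠ 0 ∧ _)]
      have := hn1 (p.Prime ∧ (u p : ℝ) ≠ 0 ∧
        η ^ 2 / 2 ≤ |∫ x, G2 (dil (u p) p x) ∂κ - ∫ x, G2 x ∂κ|) inferInstance
      linarith
    by_cases b2 : η ^ 2 / 2 ≤ |∫ x, G2 (dil (u p) p x) ∂κ - ∫ x, G2 x ∂κ|
    · rw [if_pos (⟨hp, hup, b2⟩ : p.Prime ∧ (u p : ℝ) ≠ 0 ∧ _)]
      have := hn1 (p.Prime ∧ (u p : ℝ) ≠ 0 ∧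
        ε / 4 ≤ |∫ x, G1 (dil (u p) p x) ∂κ - ∫ x, G1 x ∂κ|) inferInstance
      linarith
    exfalso
    push Not at b1 b2
    have hs2 : (u p : ℝ) ^ 2 = 1 := by
      rcases hu p with h | h | h
      · rw [h]; norm_num
      · exact absurd h hup
      · rw [h]; norm_num
    have hs1 : |(u p : ℝ)| = 1 := by
      have h2 : (u p : ℝ) = 1 ∨ (u p : ℝ) = -1 := by simpa using hs2
      rcases h2 with h2 | h2
      · rw [h2, abs_one]
      · rw [h2, abs_neg, abs_one]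
    rw [hG2] at b2
    have hd := hφd p (u p) hp.one_lt.le hs2 b2
    -- the two means
    obtain ⟨K, hK⟩ : ∃ K : ℕ, K = ∑ n ∈ s, (i n + j n) := ⟨_, rfl⟩
    obtain ⟨E1, hE1⟩ : ∃ E1 : ℝ, E1 = ∫ x, ∏ n ∈ s, ((x n : ℝ) ^ i n * V (sh n x) ^ j n) ∂κ :=
      ⟨_, rfl⟩
    obtain ⟨Ep, hEp⟩ : ∃ Ep : ℝ, Ep =
      ∫ x, ∏ n ∈ s, ((x (p * n) : ℝ) ^ i n * V (sh (p * n) x) ^ j n) ∂κ := ⟨_, rfl⟩
    have i1 : ∫ x, ∏ n ∈ s, ((x n : ℝ) ^ i n * (κ[fun y => (y n : ℝ) | remote]) x ^ j n) ∂κ =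
        E1 := by
      rw [hE1]
      refine integral_congr_ae ?_
      filter_upwards [hall] with x hx
      exact prod_congr rfl fun n _ => by rw [hx n]
    have i2 : ∫ x, ∏ n ∈ s, ((x (p * n) : ℝ) ^ i n *
        (κ[fun y => (y (p * n) : ℝ) | remote]) x ^ j n) ∂κ = Ep := by
      rw [hEp]
      refine integral_congr_ae ?_
      filter_upwards [hall] with x hx
      exact prod_congr rfl fun n _ => by rw [hx (p * n)]
    rw [i1, i2, ← hK] at hge
    have d1 : |∫ x, G1 x ∂κ - E1| ≤ J * η := by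
      rw [hE1, hG1, hJ]
      refine prod_int κ s i j (fun n x => (x n : ℝ)) (fun n x => φ (sh n x))
        (fun n x => V (sh n x)) (fun n => meas_y n) (fun n => hφc.measurable.comp (sh_meas n))
        (fun n => hVm'.comp (sh_meas n)) (fun n x => abs_y x n) (fun n x => hφ1 _)
        (fun n x => hV1 _) η fun n => ?_
      have h1 := int_sh κ hS n (fun x => |φ x - V x|) (hφc.measurable.sub hVm').abs
      exact (le_of_eq h1).trans hφV
    have hdc : Measurable (dil (u p) p) := (dil_cont (u p) p).measurable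
    have hsc : ∀ (n : ℤ) (x : X), sh n (dil (u p) p x) = dil (u p) p (sh (p * n) x) := by
      intro n x
      funext k
      unfold sh dil
      rw [mul_add]
    have d2 : |∫ x, G1 (dil (u p) p x) ∂κ - (u p : ℝ) ^ K * Ep| ≤ J * η := by
      have h1 : (u p : ℝ) ^ K * Ep = ∫ x, ∏ n ∈ s,
          (((u p : ℝ) * (x (p * n) : ℝ)) ^ i n * ((u p : ℝ) * V (sh (p * n) x)) ^ j n) ∂κ := by
        rw [hEp, ← integral_const_mul]
        congr 1
        funext x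
        rw [hK, ← prod_pow_eq_pow_sum, ← prod_mul_distrib]
        refine prod_congr rfl fun n _ => ?_
        rw [mul_pow, mul_pow, pow_add]
        ring
      rw [h1, hG1, hJ]
      have hup1 : |(u p : ℝ)| ≤ 1 := hs1.le
      have hmul1 : ∀ a : ℝ, |a| ≤ 1 → |(u p : ℝ) * a| ≤ 1 := by
        intro a ha
        rw [abs_mul, hs1, one_mul]
        exact ha
      have h2 := prod_int κ s i j (fun n x => (u p : ℝ) * (x (p * n) : ℝ))
        (fun n x => φ (sh n (dil (u p) p x)))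
        (fun n x => (u p : ℝ) * V (sh (p * n) x)) (fun n => (meas_y _).const_mul _)
        (fun n => (hφc.measurable.comp (sh_meas n)).comp hdc)
        (fun n => (hVm'.comp (sh_meas _)).const_mul _) (fun n x => hmul1 _ (abs_y x _))
        (fun n x => hφ1 _) (fun n x => hmul1 _ (hV1 _)) η fun n => ?_
      · exact h2
      · have h3 : ∀ x : X, |φ (sh n (dil (u p) p x)) - (u p : ℝ) * V (sh (p * n) x)| =
            (fun x => |φ (dil (u p) p x) - (u p : ℝ) * V x|) (sh (p * n) x) := by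
          intro x
          rw [hsc]
        have h4 := int_sh κ hS (p * n) (fun x => |φ (dil (u p) p x) - (u p : ℝ) * V x|)
          ((hφc.measurable.comp hdc).sub (hVm'.const_mul _)).abs
        have h5 : ∫ x, |φ (sh n (dil (u p) p x)) - (u p : ℝ) * V (sh (p * n) x)| ∂κ =
            ∫ x, (fun x => |φ (dil (u p) p x) - (u p : ℝ) * V x|) (sh (p * n) x) ∂κ :=
          integral_congr_ae (Eventually.of_forall h3)
        rw [h5, h4]
        exact hd
    have hsK : |(u p : ℝ) ^ K| = 1 := by rw [abs_pow, hs1, one_pow]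
    have hsK2 : (u p : ℝ) ^ K * (u p : ℝ) ^ K = 1 := by
      rw [← pow_add, ← two_mul, pow_mul, hs2, one_pow]
    have h6 : |Ep - (u p : ℝ) ^ K * E1| = |(u p : ℝ) ^ K * Ep - E1| := by
      have h7 : (u p : ℝ) ^ K * Ep - E1 = (u p : ℝ) ^ K * (Ep - (u p : ℝ) ^ K * E1) := by
        rw [mul_sub, ← mul_assoc, hsK2, one_mul]
      rw [h7, abs_mul, hsK, one_mul]
    rw [h6] at hge
    have h8 : (u p : ℝ) ^ K * Ep - E1 =
        ((∫ x, G1 (dil (u p) p x) ∂κ - ∫ x, G1 x ∂κ) -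
          (∫ x, G1 (dil (u p) p x) ∂κ - (u p : ℝ) ^ K * Ep)) + (∫ x, G1 x ∂κ - E1) := by ring
    have h9 : |(u p : ℝ) ^ K * Ep - E1| < ε / 4 + J * η + J * η := by
      rw [h8]
      refine (abs_add_le _ _).trans_lt ?_
      have h10 := abs_sub (∫ x, G1 (dil (u p) p x) ∂κ - ∫ x, G1 x ∂κ)
        (∫ x, G1 (dil (u p) p x) ∂κ - (u p : ℝ) ^ K * Ep)
      linarith
    linarith

end Pool.Agent.H36.RP
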