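import Pool.Agent.H36.RP.DIL3
import Pool.Agent.H2.RP.MP
import Pool.Agent.H17.RP.APF
import Pool.Agent.H17.RP.IND
import Pool.Agent.H19.RP.SET
import Pool.Agent.H19.RP.TAI
import Pool.Agent.H85.RP.CHO
import Pool.Agent.H85.RP.INV
import Pool.Agent.H95.RP.GEN
import Pool.Agent.H96.RP.PRD

/-!
# Independent signs with a deterministic bias: assembly (MP_c59857_nt)
-/

set_option autoImplicit false

open MeasureTheory ProbabilityTheory Filter Topology Finset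

namespace Pool.Agent.H36.RP

open Pool.Agent.H89.MT (I1 X pt z1 o1 m1 IsMult)
open Pool.Agent.H95.RP (bias)

/-- The conditional mean of the coordinate `x n` given the remote past. -/
noncomputable def P (κ : Measure X) (n : ℤ) : X → ℝ := κ[fun x : X => (x n : ℝ) | remote]

/-- a set whose indicator is its own conditional expectation -/
theorem set_version (κ : Measure X) (mm : MeasurableSpace X) (A : Set X)
    (g : X → ℝ) (hg : Measurable[mm] g) (h : A.indicator (fun _ => (1 : ℝ)) =ᵐ[κ] g) :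
    ∃ A' : Set X, MeasurableSet[mm] A' ∧ A =ᵐ[κ] A' := by
  refine ⟨g ⁻¹' {1}, hg (measurableSet_singleton 1), ?_⟩
  filter_upwards [h] with x hx
  apply propext
  change x ∈ A ↔ g x = 1
  rw [← hx]
  by_cases hA : x ∈ A
  · rw [Set.indicator_of_mem hA]
    exact ⟨fun _ => rfl, fun _ => hA⟩
  · rw [Set.indicator_of_notMem hA]
    exact ⟨fun h => absurd h hA, fun h => absurd h zero_ne_one⟩

theorem fin_of (hMW : T_MW) (hAR : T_AR) (hAPX : T_APX) (u : ℕ → I1) (hu : IsMult u)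
    (hv : ∀ n, (u n : ℝ) = -1 ∨ (u n : ℝ) = 0 ∨ (u n : ℝ) = 1)
    (hs : ¬ Summable (fun p : ℕ => if p.Prime ∧ (u p : ℝ) ≠ 0 then (1 : ℝ) / p else 0))
    (κ : Measure X) [IsProbabilityMeasure κ] (hκ : QuasiGeneric u κ) :
    iCondIndepFun remote remote_le (fun (n : ℤ) (x : X) => x n) κ ∧
    (∀ (m : ℤ) (B : Set I1), MeasurableSet B →
      κ⟦(fun x : X => x m) ⁻¹' B | past (m - 1)⟧ =ᵐ[κ] κ⟦(fun x : X => x m) ⁻¹' B | remote⟧) ∧
    (∀ A : Set X, MeasurableSet A → S ⁻¹' A = A →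
      ∃ A' : Set X, MeasurableSet[remote] A' ∧ A =ᵐ[κ] A') ∧
    (∀ᵐ x ∂κ, iCondIndepFun remote remote_le (fun (n : ℤ) (y : X) => y n) (comp κ x) ∧
      ∀ n : ℤ, P κ n =ᵐ[comp κ x] P (comp κ x) n) ∧
    (∀ (q : ℤ) (A : Set X), MeasurableSet[remote] A →
      ∃ A' : Set X, MeasurableSet[bias κ q] A' ∧ A =ᵐ[κ] A') ∧
    (∀ (s : Finset ℤ) (i j : ℤ → ℕ) (ε : ℝ), 0 < ε →
      Summable fun p : ℕ => if p.Prime ∧ (u p : ℝ) ≠ 0 ∧ ε ≤
        |∫ x, ∏ n ∈ s, ((x (p * n) : ℝ) ^ i n * P κ (p * n) x ^ j n) ∂κ -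
          (u p : ℝ) ^ (∑ n ∈ s, (i n + j n)) *
            ∫ x, ∏ n ∈ s, ((x n : ℝ) ^ i n * P κ n x ^ j n) ∂κ|
        then (1 : ℝ) / p else 0) ∧
    ((∀ (s : Finset ℤ) (n : ℤ) (e : ℤ → ℕ), n ∉ s →
      ∫ x, (x n : ℝ) * ∏ k ∈ s, (x k : ℝ) ^ e k ∂κ = 0) ↔ P κ 0 =ᵐ[κ] 0) := by
  obtain ⟨hS, hT⟩ := Pool.Agent.H2.RP.pf_MP u hv κ hκ
  have hstar : Star κ := Pool.Agent.H12.RP.pf_ST hMW hAR u hu hv hs κ hκ
  have hstarS : StarS u κ := pf_STS hMW hAR u hu hv κ hκ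
  have hPRD : T_PRD := Pool.Agent.H96.RP.pf_PRD hAPX Pool.Agent.H35.RP.pf_PYT
  have hset : ∀ (m : ℤ) (ψ : I1 → ℝ),
      κ[fun x => ψ (x m) | past (m - 1)] =ᵐ[κ] κ[fun x => ψ (x m) | remote] :=
    Pool.Agent.H19.RP.pf_SET hPRD Pool.Agent.H19.RP.pf_TAI κ hS hstar hT
  have hset' : ∀ (m : ℤ) (ψ : I1 → ℝ), Measurable ψ → (∀ a, |ψ a| ≤ 1) →
      κ[fun x => ψ (x m) | past (m - 1)] =ᵐ[κ] κ[fun x => ψ (x m) | remote] :=
    fun m ψ _ _ => hset m ψ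
  have hind := Pool.Agent.H17.RP.pf_IND κ hset'
  have hinv := Pool.Agent.H85.RP.pf_INV Pool.Agent.H17.RP.pf_APF Pool.Agent.H35.RP.pf_PYT
    Pool.Agent.H19.RP.pf_TAI κ hS
  obtain ⟨hc1, hc2⟩ := pf_comp κ hT hset' hinv
  refine ⟨hind, ?_, ?_, ?_, ?_, ?_, Pool.Agent.H85.RP.pf_CHO κ hS hT hset' hind⟩
  · intro m B _
    exact hset m (B.indicator fun _ => (1 : ℝ))
  · intro A hA hAi
    exact set_version κ remote A _ stronglyMeasurable_condExp.measurable (hinv A hA hAi).symm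
  · have h1 : ∀ᵐ x ∂κ, ∀ n : ℤ, P κ n =ᵐ[comp κ x] P (comp κ x) n := by
      rw [ae_all_iff]
      intro n
      exact hc2 n (fun t => (t : ℝ)) measurable_subtype_coe fun t => abs_le.2 t.2
    filter_upwards [hc1, h1] with x hx hx1
    exact ⟨Pool.Agent.H17.RP.pf_IND (comp κ x) hx, hx1⟩
  · intro q A hA
    obtain ⟨h, hh, hAh⟩ := Pool.Agent.H95.RP.pf_GEN hAPX κ hT hind
      (A.indicator fun _ => (1 : ℝ)) 1 (measurable_const.indicator hA) (fun x => by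
        by_cases hx : x ∈ A
        · rw [Set.indicator_of_mem hx, abs_one]
        · rw [Set.indicator_of_notMem hx, abs_zero]
          exact zero_le_one) q
    exact set_version κ (bias κ q) A h hh hAh
  · intro s i j ε hε
    exact pf_DIL hAPX u hv κ hS hstarS (hset 0 fun t => (t : ℝ)) s i j ε hε

end Pool.Agent.H36.RP
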