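import Pool.Agent.H36.RP.Fin
import Pool.Agent.H36.RP.APX
import Pool.Agent.H12.RP.AR
import Pool.Agent.H14.RP.MW

/-!
# Independent signs with a deterministic bias (MP_c59857_nt)
-/

set_option autoImplicit false

open MeasureTheory ProbabilityTheory Filter Topology Finset

namespace Pool.Agent.H36.RP

open Pool.Agent.H89.MT (I1 X pt z1 o1 m1 IsMult)
open Pool.Agent.H95.RP (bias)

theorem main (u : ℕ → I1) (hu : IsMult u)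
    (hv : ∀ n, (u n : ℝ) = -1 ∨ (u n : ℝ) = 0 ∨ (u n : ℝ) = 1)
    (hs : ¬ Summable (fun p : ℕ => if p.Prime ∧ (u p : ℝ) ≠ 0 then (1 : ℝ) / p else 0))
    (κ : Measure X) [IsProbabilityMeasure κ] (hκ : QuasiGeneric u κ) :
    iCondIndepFun remote remote_le (fun (n : ℤ) (x : X) => x n) κ ∧
    (∀ (m : ℤ) (B : Set I1), MeasurableSet B →
      κ⟦(fun x : X => x m) ⁻¹' B | past (m - 1)⟧ =ᵐ[κ] κ⟦(fun x : X => x m) ⁻¹' B | remote⟧) ∧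
    (∀ A : Set X, MeasurableSet A → S ⁻¹' A = A →
      ∃ A' : Set X, MeasurableSet[remote] A' ∧ A =ᵐ[κ] A') ∧
    (∀ᵐ x ∂κ, iCondIndepFun remote remote_le (fun (n : ℤ) (y : X) => y n) (comp κ x) ∧
      ∀ n : ℤ, P κ n =ᵐ[comp κ x] P (comp κ x) n) ∧
    (∀ (q : ℤ) (A : Set X), MeasurableSet[remote] A →
      ∃ A' : Set X, MeasurableSet[bias κ q] A' ∧ A =ᵐ[κ] A') ∧
    (∀ (s : Finset ℤ) (i j : ℤ → ℕ) (ε : ℝ), 0 < ε →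
      Summable fun p : ℕ => if p.Prime ∧ (u p : ℝ) ≠ 0 ∧ ε ≤
        |∫ x, ∏ n ∈ s, ((x (p * n) : ℝ) ^ i n * P κ (p * n) x ^ j n) ∂κ -
          (u p : ℝ) ^ (∑ n ∈ s, (i n + j n)) *
            ∫ x, ∏ n ∈ s, ((x n : ℝ) ^ i n * P κ n x ^ j n) ∂κ|
        then (1 : ℝ) / p else 0) ∧
    ((∀ (s : Finset ℤ) (n : ℤ) (e : ℤ → ℕ), n ∉ s →
      ∫ x, (x n : ℝ) * ∏ k ∈ s, (x k : ℝ) ^ e k ∂κ = 0) ↔ P κ 0 =ᵐ[κ] 0) :=
  fin_of Pool.Agent.H14.RP.pf_MW Pool.Agent.H12.RP.pf_AR pf_APX u hu hv hs κ hκ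

end Pool.Agent.H36.RP
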