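import Pool.Agent.H12.RP.ST

/-!
# Approximate invariance under almost all twisted dilations (MP_c59857_nt)
-/

set_option autoImplicit false

open MeasureTheory ProbabilityTheory Filter Topology Finset

namespace Pool.Agent.H36.RP

open Pool.Agent.H89.MT (I1 X pt z1 IsMult)
open Pool.Agent.H91.LF (Mean Dil Bdd)
open Pool.Agent.H12.RP (FF FF_val FF_mul FF_nat cl dil_cont dil_pt id_pt)

/-- The primes `p` with `u p ≠ 0` for which the mean of `G` changes by at least `ε` under the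
twisted dilation by `p` have a finite sum of reciprocals. -/
def StarS (u : ℕ → I1) (κ : Measure X) : Prop :=
  ∀ (G : X → ℝ) (H : ℕ), Continuous G → Local H G → ∀ ε : ℝ, 0 < ε →
    Summable fun p : ℕ => if p.Prime ∧ (u p : ℝ) ≠ 0 ∧
      ε ≤ |∫ x, G (dil (u p) p x) ∂κ - ∫ x, G x ∂κ| then (1 : ℝ) / p else 0

/-- [STS] From the arithmetic to the measure, for almost all primes. -/
def T_STS : Prop := ∀ u : ℕ → I1, IsMult u →
  (∀ n, (u n : ℝ) = -1 ∨ (u n : ℝ) = 0 ∨ (u n : ℝ) = 1) →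
  ∀ (κ : Measure X) [IsProbabilityMeasure κ], QuasiGeneric u κ → StarS u κ

theorem pf_STS : T_MW → T_AR → T_STS := by
  intro hMW hAR u hu hv κ _ hq G H hG hloc ε hε
  obtain ⟨Y, Z, hYZ, hlog, hF⟩ := hq
  obtain ⟨M, hM, hE⟩ := hMW Y Z hYZ hlog
  obtain ⟨C, hC⟩ := hAR M hM (FF u) (FF_val u hv) (FF_mul u hu) H
  -- a bound of `G`
  obtain ⟨B, hB0, hB⟩ : ∃ B : ℝ, 0 < B ∧ ∀ x, |G x| ≤ B := by
    obtain ⟨B, hB⟩ := (isCompact_range hG).isBounded.exists_norm_le
    refine ⟨max B 1, lt_of_lt_of_le one_pos (le_max_right _ _), fun x => ?_⟩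
    exact (hB (G x) ⟨x, rfl⟩).trans (le_max_left _ _)
  set Φ : (ℤ → ℝ) → ℝ := fun z => G (cl z) / B with hΦ
  have hΦ1 : ∀ z, |Φ z| ≤ 1 := by
    intro z
    rw [hΦ, abs_div, abs_of_pos hB0]
    exact (div_le_one hB0).2 (hB _)
  have hΦ2 : ∀ z z' : ℤ → ℝ, (∀ k : ℤ, |k| ≤ H → z k = z' k) → Φ z = Φ z' := by
    intro z z' hz
    have h1 : G (cl z) = G (cl z') := hloc _ _ fun k hk => by
      unfold cl
      rw [hz k hk]
    rw [hΦ]
    change G (cl z) / B = G (cl z') / B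
    rw [h1]
  have hA : M.E (fun ω => Φ (fun k => FF u (ω 0 + k))) = (∫ x, G x ∂κ) / B := by
    refine hE (fun n => Φ (fun k => FF u (n + k))) 1 _ (fun n => hΦ1 _) ?_
    have h1 := (hF ⟨G, hG⟩).div_const B
    refine h1.congr fun k => ?_
    rw [div_right_comm, sum_div]
    congr 1
    refine sum_congr rfl fun n _ => ?_
    change G (pt u n) / n / B = G (cl (fun k => FF u ((n : ℤ) + k))) / B / n
    rw [id_pt, div_right_comm]
  have hBp : ∀ p : ℕ, 0 < p → M.E (fun ω => Φ (fun k => FF u p * FF u (ω 0 + p * k))) =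
      (∫ x, G (dil (u p) p x) ∂κ) / B := by
    intro p hp
    refine hE (fun n => Φ (fun k => FF u p * FF u (n + p * k))) 1 _ (fun n => hΦ1 _) ?_
    have h1 := (hF ⟨fun x => G (dil (u p) p x), hG.comp (dil_cont (u p) p)⟩).div_const B
    refine h1.congr fun k => ?_
    rw [div_right_comm, sum_div]
    congr 1
    refine sum_congr rfl fun n _ => ?_
    change G (dil (u p) p (pt u n)) / n / B =
      G (cl (fun k => FF u p * FF u ((n : ℤ) + p * k))) / B / n
    rw [dil_pt u p n hp, div_right_comm]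
  have key : ∀ S : Finset ℕ, (∀ p ∈ S, p.Prime ∧ (u p : ℝ) ≠ 0 ∧
      ε ≤ |∫ x, G (dil (u p) p x) ∂κ - ∫ x, G x ∂κ|) →
      ∑ p ∈ S, (1 : ℝ) / p ≤ C * (B / ε) ^ 2 := by
    intro S hS
    have h1 := hC Φ hΦ1 hΦ2 S (fun p hp => ⟨(hS p hp).1, by
      rw [FF_nat u p (hS p hp).1.pos]; exact (hS p hp).2.1⟩)
    have h2 : ∀ p ∈ S, (1 / (p : ℝ)) * (ε / B) ^ 2 ≤ (1 / (p : ℝ)) *
        (M.E (fun ω => Φ (fun k => FF u p * FF u (ω 0 + p * k))) -
        M.E (fun ω => Φ (fun k => FF u (ω 0 + k)))) ^ 2 := by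
      intro p hp
      obtain ⟨hpp, hp0, hpε⟩ := hS p hp
      refine mul_le_mul_of_nonneg_left ?_ (by positivity)
      rw [hA, hBp p hpp.pos, ← sub_div, div_pow, div_pow]
      refine div_le_div_of_nonneg_right ?_ (by positivity)
      rw [← sq_abs (∫ x, G (dil (u p) p x) ∂κ - ∫ x, G x ∂κ)]
      exact pow_le_pow_left₀ hε.le hpε 2
    have h3 : (∑ p ∈ S, (1 : ℝ) / p) * (ε / B) ^ 2 ≤ C := by
      rw [sum_mul]
      exact (sum_le_sum h2).trans h1
    have h4 : (0 : ℝ) < (ε / B) ^ 2 := by positivity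
    have h5 : C * (B / ε) ^ 2 = C / (ε / B) ^ 2 := by
      rw [div_pow, div_pow]
      field_simp
    rw [h5, le_div_iff₀ h4]
    exact h3
  refine summable_of_sum_le (c := C * (B / ε) ^ 2) ?_ ?_
  · intro p
    dsimp only
    split_ifs
    · positivity
    · exact le_rfl
  · intro T
    rw [← sum_filter]
    refine key _ fun p hp => ?_
    rw [mem_filter] at hp
    exact hp.2

end Pool.Agent.H36.RP
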