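import Pool.Agent.H36.RP.Fin
import Pool.Agent.H36.RP.APX
import Pool.Agent.H12.RP.AR
import Pool.Agent.H14.RP.MW

/-!
# The multiplicative functions which vanish at many primes (MP_c59857_nt)
-/

set_option autoImplicit false

open MeasureTheory ProbabilityTheory Filter Topology Finset

namespace Pool.Agent.H36.RP

open Pool.Agent.H89.MT (I1 X pt z1 o1 m1 IsMult)
open Pool.Agent.H91.LF (Mean Dil Bdd bdd_const bdd_add bdd_mul bdd_smul bdd_sub bdd_sum bdd_comp)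
open Pool.Agent.H12.RP (FF FF_val FF_mul FF_nat cl dil_cont dil_pt id_pt)
open Pool.Agent.H95.RP (bias)

/-- the multiples of `d` -/
def dv (d : ℕ) (n : ℤ) : ℝ := if (d : ℤ) ∣ n then 1 else 0

theorem dv_bdd (d : ℕ) : Bdd (fun ω : Fin 1 → ℤ => dv d (ω 0)) :=
  ⟨1, fun ω => by
    change |dv d (ω 0)| ≤ 1
    unfold dv
    split_ifs <;> simp⟩

theorem dv_mul (a b : ℕ) (h : a.Coprime b) (n : ℤ) : dv a n * dv b n = dv (a * b) n := by
  unfold dv
  have h1 : IsCoprime (a : ℤ) (b : ℤ) := Nat.isCoprime_iff_coprime.2 h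
  by_cases ha : (a : ℤ) ∣ n
  · by_cases hb : (b : ℤ) ∣ n
    · have hc : ((a * b : ℕ) : ℤ) ∣ n := by
        push_cast
        exact h1.mul_dvd ha hb
      rw [if_pos ha, if_pos hb, if_pos hc, one_mul]
    · have hc : ¬ ((a * b : ℕ) : ℤ) ∣ n := fun hc =>
        hb ((Dvd.intro_left (a : ℤ) (by push_cast; ring)).trans hc)
      rw [if_neg hb, if_neg hc, mul_zero]
  · have hc : ¬ ((a * b : ℕ) : ℤ) ∣ n := fun hc =>
      ha ((Dvd.intro (b : ℤ) (by push_cast; ring)).trans hc)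
    rw [if_neg ha, if_neg hc, zero_mul]

theorem dv_E (M : Mean 1) (d : ℕ) (hd : 0 < d) : M.E (fun ω => dv d (ω 0)) = 1 / d := by
  have h1 := Pool.Agent.H95.RPR.E_class M d hd
  have h2 : (d : ℝ) ≠ 0 := by exact_mod_cast hd.ne'
  have h3 : (fun ω : Fin 1 → ℤ => dv d (ω 0)) =
      fun ω : Fin 1 → ℤ => if (d : ℤ) ∣ ω 0 then (1 : ℝ) else 0 := by
    funext ω
    unfold dv
    split_ifs <;> rfl
  rw [h3, eq_div_iff h2, mul_comm]
  refine Eq.trans ?_ h1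
  congr 2

/-- the numbers which `p` divides exactly once -/
def ex1 (p : ℕ) (n : ℤ) : ℝ := dv p n - dv (p ^ 2) n

/-- their density -/
noncomputable def vv (p : ℕ) : ℝ := 1 / p - 1 / (p : ℝ) ^ 2

theorem ex1_bdd (p : ℕ) : Bdd (fun ω : Fin 1 → ℤ => ex1 p (ω 0)) :=
  bdd_sub (dv_bdd p) (dv_bdd (p ^ 2))

theorem ex1_E (M : Mean 1) (p : ℕ) (hp : 0 < p) : M.E (fun ω => ex1 p (ω 0)) = vv p := by
  unfold ex1 vv
  rw [M.E_sub (dv_bdd p) (dv_bdd (p ^ 2)), dv_E M p hp, dv_E M (p ^ 2) (by positivity)]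
  push_cast
  ring

theorem ex1_mul (M : Mean 1) (p q : ℕ) (hp : p.Prime) (hq : q.Prime) (h : p ≠ q) :
    M.E (fun ω => ex1 p (ω 0) * ex1 q (ω 0)) = vv p * vv q := by
  have hc : p.Coprime q := (Nat.coprime_primes hp hq).2 h
  have h1 : (fun ω : Fin 1 → ℤ => ex1 p (ω 0) * ex1 q (ω 0)) = fun ω : Fin 1 → ℤ =>
      (dv (p * q) (ω 0) - dv (p * q ^ 2) (ω 0)) -
        (dv (p ^ 2 * q) (ω 0) - dv (p ^ 2 * q ^ 2) (ω 0)) := by
    funext ω
    rw [← dv_mul p q hc, ← dv_mul p (q ^ 2) (hc.pow_right 2), ← dv_mul (p ^ 2) q (hc.pow_left 2),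
      ← dv_mul (p ^ 2) (q ^ 2) (hc.pow 2 2)]
    unfold ex1
    ring
  have hp0 := hp.pos
  have hq0 := hq.pos
  have hp1 : (p : ℝ) ≠ 0 := by exact_mod_cast hp0.ne'
  have hq1 : (q : ℝ) ≠ 0 := by exact_mod_cast hq0.ne'
  rw [h1, M.E_sub (bdd_sub (dv_bdd _) (dv_bdd _)) (bdd_sub (dv_bdd _) (dv_bdd _)),
    M.E_sub (dv_bdd _) (dv_bdd _), M.E_sub (dv_bdd _) (dv_bdd _),
    dv_E M _ (by positivity), dv_E M _ (by positivity), dv_E M _ (by positivity),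
    dv_E M _ (by positivity)]
  unfold vv
  push_cast
  field_simp

theorem ex1_sq (p : ℕ) (n : ℤ) : ex1 p n * ex1 p n = ex1 p n := by
  unfold ex1 dv
  by_cases h1 : (p : ℤ) ∣ n
  · by_cases h2 : ((p ^ 2 : ℕ) : ℤ) ∣ n
    · rw [if_pos h1, if_pos h2]
      ring
    · rw [if_pos h1, if_neg h2]
      ring
  · have h2 : ¬ ((p ^ 2 : ℕ) : ℤ) ∣ n := fun h => h1 ((Dvd.intro (p : ℤ) (by push_cast; ring)).trans h)
    rw [if_neg h1, if_neg h2]
    ring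

theorem vv_nonneg (p : ℕ) (hp : p.Prime) : 1 / (2 * (p : ℝ)) ≤ vv p := by
  have h2 : (2 : ℝ) ≤ p := by exact_mod_cast hp.two_le
  have h0 : (0 : ℝ) < p := by linarith
  unfold vv
  rw [div_sub_div _ _ h0.ne' (by positivity), div_le_div_iff₀ (by positivity) (by positivity)]
  nlinarith [mul_nonneg (mul_nonneg h0.le h0.le) (sub_nonneg.2 h2)]

/-- the variance of the number of the primes of `S` which divide exactly once -/
theorem var_le (M : Mean 1) (S : Finset ℕ) (hS : ∀ p ∈ S, p.Prime) :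
    M.E (fun ω => (∑ p ∈ S, (ex1 p (ω 0) - vv p)) ^ 2) ≤ ∑ p ∈ S, vv p := by
  have hb : ∀ p, Bdd (fun ω : Fin 1 → ℤ => ex1 p (ω 0) - vv p) := fun p =>
    bdd_sub (ex1_bdd p) (bdd_const _)
  have h1 : (fun ω : Fin 1 → ℤ => (∑ p ∈ S, (ex1 p (ω 0) - vv p)) ^ 2) = fun ω : Fin 1 → ℤ =>
      ∑ p ∈ S, ∑ q ∈ S, (ex1 p (ω 0) - vv p) * (ex1 q (ω 0) - vv q) := by
    funext ω
    rw [sq, sum_mul_sum]
  rw [h1, M.E_sum _ _ fun p _ => bdd_sum _ _ fun q _ => bdd_mul (hb p) (hb q)]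
  refine sum_le_sum fun p hp => ?_
  rw [M.E_sum _ _ fun q _ => bdd_mul (hb p) (hb q)]
  have h2 : ∀ q, M.E (fun ω => (ex1 p (ω 0) - vv p) * (ex1 q (ω 0) - vv q)) =
      M.E (fun ω => ex1 p (ω 0) * ex1 q (ω 0)) - vv q * M.E (fun ω => ex1 p (ω 0)) -
        (vv p * M.E (fun ω => ex1 q (ω 0)) - vv p * vv q) := by
    intro q
    have h3 : (fun ω : Fin 1 → ℤ => (ex1 p (ω 0) - vv p) * (ex1 q (ω 0) - vv q)) =
        fun ω : Fin 1 → ℤ => (ex1 p (ω 0) * ex1 q (ω 0) - vv q * ex1 p (ω 0)) -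
          (vv p * ex1 q (ω 0) - vv p * vv q) := by
      funext ω
      ring
    rw [h3, M.E_sub (bdd_sub (bdd_mul (ex1_bdd p) (ex1_bdd q)) (bdd_smul _ (ex1_bdd p)))
      (bdd_sub (bdd_smul _ (ex1_bdd q)) (bdd_const _)),
      M.E_sub (bdd_mul (ex1_bdd p) (ex1_bdd q)) (bdd_smul _ (ex1_bdd p)),
      M.E_sub (bdd_smul _ (ex1_bdd q)) (bdd_const _), M.E_const,
      M.smul _ _ (ex1_bdd p), M.smul _ _ (ex1_bdd q)]
  rw [sum_eq_single p]
  · rw [h2, ex1_E M p (hS p hp).pos]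
    have h4 : M.E (fun ω => ex1 p (ω 0) * ex1 p (ω 0)) = vv p := by
      have h5 : (fun ω : Fin 1 → ℤ => ex1 p (ω 0) * ex1 p (ω 0)) =
          fun ω : Fin 1 → ℤ => ex1 p (ω 0) := by
        funext ω
        exact ex1_sq p _
      rw [h5, ex1_E M p (hS p hp).pos]
    rw [h4]
    nlinarith [sq_nonneg (vv p)]
  · intro q hq hqp
    rw [h2, ex1_mul M p q (hS p hp) (hS q hq) hqp.symm, ex1_E M p (hS p hp).pos,
      ex1_E M q (hS q hq).pos]
    ring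
  · intro h
    exact absurd hp h

/-- a multiplicative function which vanishes at the primes of `S` is small in the mean -/
theorem mean_small (M : Mean 1) (F : ℤ → ℝ) (hF1 : ∀ n, |F n| ≤ 1)
    (hF : ∀ (p : ℕ) (m : ℤ), p.Prime → ¬ (p : ℤ) ∣ m → F (p * m) = F p * F m)
    (S : Finset ℕ) (hS : ∀ p ∈ S, p.Prime ∧ F p = 0) :
    M.E (fun ω => F (ω 0) ^ 2) * (∑ p ∈ S, vv p) ^ 2 ≤ ∑ p ∈ S, vv p := by
  refine le_trans ?_ (var_le M S fun p hp => (hS p hp).1)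
  have hb : ∀ p, Bdd (fun ω : Fin 1 → ℤ => ex1 p (ω 0) - vv p) := fun p =>
    bdd_sub (ex1_bdd p) (bdd_const _)
  have hF2 : Bdd (fun ω : Fin 1 → ℤ => F (ω 0) ^ 2) := by
    refine ⟨1, fun ω => ?_⟩
    rw [abs_pow]
    exact pow_le_one₀ (abs_nonneg _) (hF1 _)
  rw [mul_comm, ← M.smul _ _ hF2]
  have hb2 : Bdd (fun ω : Fin 1 → ℤ => (∑ p ∈ S, (ex1 p (ω 0) - vv p)) ^ 2) := by
    have h := bdd_mul (bdd_sum S _ fun p _ => hb p) (bdd_sum S _ fun p _ => hb p)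
    simpa only [sq] using h
  refine M.E_mono (bdd_smul _ hF2) hb2 fun ω => ?_
  by_cases h0 : F (ω 0) = 0
  · rw [h0]
    have := sq_nonneg (∑ p ∈ S, (ex1 p (ω 0) - vv p))
    simpa using this
  · have h1 : ∀ p ∈ S, ex1 p (ω 0) = 0 := by
      intro p hp
      obtain ⟨hpp, hp0⟩ := hS p hp
      unfold ex1 dv
      by_cases h2 : (p : ℤ) ∣ ω 0
      · by_cases h3 : ((p ^ 2 : ℕ) : ℤ) ∣ ω 0
        · rw [if_pos h2, if_pos h3, sub_self]
        · exfalso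
          obtain ⟨m, hm⟩ := h2
          have h4 : ¬ (p : ℤ) ∣ m := by
            rintro ⟨t, ht⟩
            refine h3 ⟨t, ?_⟩
            rw [hm, ht]
            push_cast
            ring
          apply h0
          rw [hm, hF p m hpp h4, hp0, zero_mul]
      · have h3 : ¬ ((p ^ 2 : ℕ) : ℤ) ∣ ω 0 := fun h =>
          h2 ((Dvd.intro (p : ℤ) (by push_cast; ring)).trans h)
        rw [if_neg h2, if_neg h3, sub_self]
    have h5 : ∑ p ∈ S, (ex1 p (ω 0) - vv p) = -∑ p ∈ S, vv p := by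
      rw [← sum_neg_distrib]
      exact sum_congr rfl fun p hp => by rw [h1 p hp, zero_sub]
    rw [h5, neg_sq]
    have h6 : F (ω 0) ^ 2 ≤ 1 := by
      rw [← sq_abs]
      exact pow_le_one₀ (abs_nonneg _) (hF1 _)
    nlinarith [sq_nonneg (∑ p ∈ S, vv p)]

end Pool.Agent.H36.RP
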